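import Mathlib
import Pool.Graph.R_seed8.Y18.GX.Bern
import Pool.Agent.Helper85.GP.Def

/-!
# Statements of the modules: units among the Bernoulli numbers when `p` grows with `N`
-/

set_option autoImplicit false

namespace Pool.Agent.Helper85.GQ

open Finset Polynomial

/-- `m! (B_m(X) - B_m)` over `κ` -/
noncomputable def pol (κ : Type) [CommRing κ] (m : ℕ) : κ[X] :=
  (Pool.Agent.Y18.GX.FF m).map (Int.castRingHom κ)

lemma pol_deg (κ : Type) [CommRing κ] (m : ℕ) : (pol κ m).natDegree ≤ m :=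
  natDegree_map_le.trans (Pool.Agent.Y18.GX.FF_natDegree m)

lemma pol_zero (κ : Type) [CommRing κ] (m : ℕ) : (pol κ m).eval 0 = 0 := by
  have e1 : (Pool.Agent.Y18.GX.FF m).eval 0 = 0 := by
    rw [Pool.Agent.Y18.GX.FF, eval_finsetSum]
    refine Finset.sum_eq_zero fun i hi => ?_
    rw [eval_monomial, zero_pow, mul_zero]
    have := mem_range.1 hi
    omega
  rw [pol, eval_map, eval₂_at_zero, ← coeff_zero_eq_eval_zero] at *
  rw [e1, map_zero]

lemma pol_diff (κ : Type) [CommRing κ] (m : ℕ) (x : κ) : (pol κ m).eval (x + 1) - (pol κ m).eval x =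
    ((m.factorial * m : ℕ) : κ) * x ^ (m - 1) := by
  have h1 : (Pool.Agent.Y18.GX.FF m).comp (X + 1) - Pool.Agent.Y18.GX.FF m =
      C ((m.factorial * m : ℕ) : ℤ) * X ^ (m - 1) := by
    have hinj : Function.Injective (Polynomial.map (Int.castRingHom ℚ)) :=
      Polynomial.map_injective _ (Int.castRingHom ℚ).injective_int
    apply hinj
    rw [Polynomial.map_sub, Polynomial.map_comp, Pool.Agent.Y18.GX.FF_map, Polynomial.map_mul,
      Polynomial.map_pow, Polynomial.map_C, Polynomial.map_X, Polynomial.map_add, Polynomial.map_X,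
      Polynomial.map_one]
    apply Polynomial.funext
    intro y
    simp only [eval_sub, eval_comp, eval_mul, eval_C, eval_add, eval_X, eval_one, eval_pow, eq_intCast]
    have h2 := Polynomial.bernoulli_eval_one_add m y
    rw [add_comm y 1, h2]
    push_cast
    ring
  have h2 := congrArg (fun q => (q.map (Int.castRingHom κ)).eval x) h1
  simp only [Polynomial.map_sub, Polynomial.map_comp, Polynomial.map_add, map_X, Polynomial.map_one,
    Polynomial.map_mul, map_C, Polynomial.map_pow, eval_sub, eval_comp, eval_add, eval_X, eval_one,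
    eval_mul, eval_C, eval_pow] at h2
  rw [pol, h2]
  simp

/-- `∑_{k ≥ 1, k N ≤ b x} (b x - k N)^(m-1)` -/
def Phi (N m b x : ℕ) : ℤ :=
  ∑ k ∈ range (b * x / N), (((b * x : ℕ) : ℤ) - ((k : ℤ) + 1) * (N : ℤ)) ^ (m - 1)

/-- the `m`-th difference of `Phi` in `x` -/
def hh (N m b x : ℕ) : ℤ :=
  ∑ i ∈ range (m + 1), (-1) ^ (m - i) * ((m.choose i : ℕ) : ℤ) * Phi N m b (x + i)

/-- the primes up to `W` which do not divide `N` -/
def BB (N W : ℕ) : Finset ℕ := (range (W + 1)).filter fun b => b.Prime ∧ ¬ b ∣ N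

/-- Hoeffding's inequality for subsets.
Proof: Markov for `exp (t (∑_{b ∈ c} h b - (∑ h) / 2))`, `t = 4 lam / v`, whose sum over all subsets `c` is
`2^|Bs| ∏ cosh (t h b / 2) ≤ 2^|Bs| exp (t^2 v / 8)` (`Finset.prod_add`, `Real.cosh_le_exp_half_sq`), and the same for
`- h`. -/
def S_HOE : Prop := ∀ (Bs : Finset ℕ) (h : ℕ → ℝ) (v lam : ℝ), 0 < v → 0 ≤ lam → ∑ b ∈ Bs, h b ^ 2 ≤ v →
  ((Bs.powerset.filter fun c => lam ≤ |∑ b ∈ c, h b - (∑ b ∈ Bs, h b) / 2|).card : ℝ) ≤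
    2 * 2 ^ Bs.card * Real.exp (-2 * lam ^ 2 / v)

/-- few primes with a jump in a short window. Proof: for such `b` there is `k` with `x b < k N ≤ (x + m) b`
(`k = x b / N + 1`), so `0 < k < b`, and for different primes the fractions `k / b` are different, so they have
distance at least `1 / W^2`; all are contained in an interval of length `m / N` (half open). For instance the map
`b ↦ ⌊W^2 (k / b - x / N)⌋` is injective. -/
def S_SPC : Prop := ∀ N m W x : ℕ, 0 < N → 1 ≤ m → x + m < N →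
  ((range (W + 1)).filter fun b => b.Prime ∧ b * x / N ≠ b * (x + m) / N).card * N ≤ m * W ^ 2 + N

/-- Proof: write `q = b x / N`. For `i ≤ m`, `Phi (x + i)` is the sum over `k < q`, a polynomial of degree
`≤ m - 1` in `i`, plus at most one more term (`k = q`, since `m b < N`), which is between `0` and `(m b)^(m-1)`. The
`m`-th difference of the polynomial is zero (`fwdDiff_iter_eq_zero_of_degree_lt` and `fwdDiff_iter_eq_sum_shift`). -/
def S_LOC : Prop := ∀ N m b x : ℕ, 0 < N → 1 ≤ m → m * b < N →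
  (b * x / N = b * (x + m) / N → hh N m b x = 0) ∧ |hh N m b x| ≤ 2 ^ m * ((m * b : ℕ) : ℤ) ^ (m - 1)

/-- Proof: in `ZMod p`, by `pol_diff`, `P(b x / N) - P((b x % N) / N) = u (1 / N)^(m-1) Phi b x`, `u = m! m ≠ 0`. So
`∑_{c} Phi - ∑_{c'} Phi` is a polynomial of degree `≤ m` in `x < N` modulo `p`; its `m`-th difference does not depend
on `x`, and for `x = 0` it is zero because all `Phi N m b i`, `i ≤ m`, are zero (`m b < N`). -/
def S_DIF : Prop := ∀ (p : ℕ) [Fact p.Prime] (N m : ℕ), ¬ p ∣ N → 1 ≤ m → m < p → m < N →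
  ∀ c c' : Finset ℕ, (∀ b ∈ c ∪ c', m * b < N) →
  (∀ x < N, ∑ b ∈ c, (pol (ZMod p) m).eval (((b * x % N : ℕ) : ZMod p) / (N : ZMod p)) =
    ∑ b ∈ c', (pol (ZMod p) m).eval (((b * x % N : ℕ) : ZMod p) / (N : ZMod p))) →
  ∀ x, x + m < N → ((p : ℤ) ∣ ∑ b ∈ c, hh N m b x - ∑ b ∈ c', hh N m b x)

/-- Proof: `G x = ∑_c Phi - ∑_{c'} Phi` is zero for `x < m` (`m b < N`, so `b x / N = 0`), and its `m`-th
differences vanish; induction. -/
def S_REC : Prop := ∀ N m : ℕ, 0 < N → 1 ≤ m → ∀ c c' : Finset ℕ, (∀ b ∈ c ∪ c', m * b < N) →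
  (∀ x, x + m < N → ∑ b ∈ c, hh N m b x = ∑ b ∈ c', hh N m b x) →
  ∀ x < N, ∑ b ∈ c, Phi N m b x = ∑ b ∈ c', Phi N m b x

/-- linear algebra: few classes. Proof: `V` = span over `ZMod p` of the functions
`F_Q (y) = P ((Q y % N) / N)` on `(ZMod N)ˣ`, `0 < Q < N`; a basis of `V` among the `F_Q` is independent over
the residue field (apply linear functionals of the residue field over `ZMod p`), so by `GP.S_Lin` (proved:
`Pool.Agent.Helper85.GP.Lin.main`) `V` has at most `p^(u+1)` elements, `u = (unitSet B N m).ncard`. For `b` prime to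
`N` and `x = d y` modulo `N`, `d ∣ N`, `y` a unit: `b x % N = (b d % N) y % N`. The map
`c ↦ (d ↦ ∑_{b ∈ c} F_(b d % N))` has at most `p^((u+1) d(N))` values, and its value determines the sums. -/
def S_CLS : Prop := ∀ (p N m : ℕ) [Fact p.Prime], ¬ p ∣ N * N.totient → 2 ≤ N → 1 ≤ m → m < p →
  ∀ B : ValuationSubring ℂ, B.valuation (p : ℂ) < 1 →
  ∀ G : Finset (Finset ℕ), (∀ c ∈ G, ∀ b ∈ c, b.Coprime N) →
  p ^ (((GP.unitSet B N m).ncard + 1) * N.divisors.card) < G.card →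
  ∃ c ∈ G, ∃ c' ∈ G, c ≠ c' ∧
    ∀ x < N, ∑ b ∈ c, (pol (ZMod p) m).eval (((b * x % N : ℕ) : ZMod p) / (N : ZMod p)) =
      ∑ b ∈ c', (pol (ZMod p) m).eval (((b * x % N : ℕ) : ZMod p) / (N : ZMod p))

/-- Proof: `P(b x / N) - P((b x % N) / N) = u N^(1-m) Phi b x` (`pol_diff`), so with
`Q(x) = ∑ e_b P(b x / N)` the left side is `Q(x)` for all `x < N`. For `x = N - y`, `1 ≤ y ≤ m + 1`, it is
`∑ e_b P(1 - b y / N)` (as `(m + 1) b < N`), so `Q(N - y) = Q(-y) + u (-y / N)^(m-1) M` as polynomials in `y`. So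
`Q(z + N) - Q(z) = M (P((z + N) / N) - P(z / N))`, `Q - M P(· / N)` is periodic and `0` at `0`, so it is zero. -/
def S_POL : Prop := ∀ N m : ℕ, 0 < N → 1 ≤ m → ∀ (Bs : Finset ℕ) (e : ℕ → ℤ),
  (∀ b ∈ Bs, 1 ≤ b ∧ (m + 1) * b < N) →
  (∀ x < N, ∑ b ∈ Bs, e b * Phi N m b x = 0) →
  ∀ x < N, ∑ b ∈ Bs, (e b : ℂ) * (pol ℂ m).eval (((b * x % N : ℕ) : ℂ) / (N : ℂ)) =
    (∑ b ∈ Bs, (e b : ℂ) * (b : ℂ) ^ (m - 1)) * (pol ℂ m).eval ((x : ℂ) / (N : ℂ))

/-- nonvanishing of `L(m, ψ)`. For `m = 1`: `Pool.Agent.H916R2.exists_SS_ne_zero`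
(`Pool.Graph.R_seed8.H916R2.OddChar`). For `m ≥ 2`: `hasSum_one_div_nat_pow_mul_fourier`; if all sums vanish, then the
sum over `a` with `e(-a / N)` is `2 N L(m, ψ⁻¹)` up to a factor, which is not zero
(`DirichletCharacter.LSeries_ne_zero_of_one_lt_re`). -/
def S_NVM : Prop := ∀ (N m : ℕ) [NeZero N], 1 ≤ m → ∀ ψ : DirichletCharacter ℂ N, ψ ≠ 1 →
  ψ (-1) = (-1) ^ m →
  ∃ a : ZMod N, ∑ t : (ZMod N)ˣ, ψ (t : ZMod N) *
    (pol ℂ m).eval (((((t : ZMod N) * a).val : ℕ) : ℂ) / (N : ℂ)) ≠ 0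

/-- Proof: put `e' = e` on `Bs`, `e' 1 = -M`. For `ψ ≠ 1` of parity `m` and `a` as in `S_NVM`, sum the relation for
`x = t a` over `t` with `ψ t`: this gives `∑ e'_b ψ⁻¹(b) = 0`. So `E(a) = e'(a) + (-1)^m e'(-a)` (on the units modulo
`N`) is orthogonal to all `ψ ≠ 1`, so constant; for `m` odd it is odd, so zero; for `m` even there is a unit
`a`, `N / 3 ≤ a < N / 2`, not in `Bs` (`a = (N - 1) / 2`, `N / 2 - 1` or `N / 2 - 2`), so it is zero. As
`2 b < N` for `b ∈ Bs`, `e b = 0`. -/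
def S_FOU : Prop := ∀ N m : ℕ, 13 ≤ N → 1 ≤ m → ∀ (Bs : Finset ℕ) (e : ℕ → ℤ) (M : ℂ),
  (∀ b ∈ Bs, 2 ≤ b ∧ (m + 1) * b < N ∧ b.Coprime N) →
  (∀ x < N, ∑ b ∈ Bs, (e b : ℂ) * (pol ℂ m).eval (((b * x % N : ℕ) : ℂ) / (N : ℂ)) =
    M * (pol ℂ m).eval ((x : ℂ) / (N : ℂ))) →
  ∀ b ∈ Bs, e b = 0

/-- assembly: pigeonhole -/
def S_PIG : Prop := ∀ p N m W : ℕ, p.Prime → ¬ p ∣ N * N.totient → 13 ≤ N → 1 ≤ m → m < p →
  (m + 1) * W < N →
  ((m : ℝ) * W ^ 2 + N) * (4 ^ m * ((m : ℝ) * W) ^ (2 * (m - 1))) * (2 * Real.log (4 * N)) ≤ N * (p : ℝ) ^ 2 →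
  ∀ B : ValuationSubring ℂ, B.valuation (p : ℂ) < 1 →
  2 ^ (BB N W).card ≤ 2 * p ^ (((GP.unitSet B N m).ncard + 1) * N.divisors.card)

/-- the choice of `W`. Proof: `T = (p² N / log N)^(1/(2m)) ≥ C^(1/(2m)) √N`,
`W = ⌊min (N / (2 (m + 1))) (c' T)⌋`; the number of primes up to `W` is at least `W / (4 log W)` for large `W` (see
`Pool.Agent.Helper85.GP.Row.card_PW`), `N` has at most `log N / log 2` prime factors. -/
def S_PAR : Prop := ∀ m : ℕ, 1 ≤ m → ∃ c C : ℝ, 0 < c ∧ ∀ p N : ℕ, p.Prime → 2 ≤ N → m < p →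
  C * ((N : ℝ) ^ (m - 1) * Real.log N) ≤ (p : ℝ) ^ 2 →
  ∀ u : ℕ, (∀ W : ℕ, 13 ≤ N → (m + 1) * W < N →
    ((m : ℝ) * W ^ 2 + N) * (4 ^ m * ((m : ℝ) * W) ^ (2 * (m - 1))) * (2 * Real.log (4 * N)) ≤
      N * (p : ℝ) ^ 2 → 2 ^ (BB N W).card ≤ 2 * p ^ ((u + 1) * N.divisors.card)) →
  c * min (N : ℝ) (((p : ℝ) ^ 2 * N / Real.log N) ^ (1 / (2 * (m : ℝ)))) /
    ((N.divisors.card : ℝ) * Real.log N * Real.log p) ≤ (u : ℝ) + 1

end Pool.Agent.Helper85.GQ
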