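import Mathlib
import Pool.Agent.Helper85.GQ.Base
import Pool.Agent.Helper85.GP.Lin2

/-!
# Linear algebra over `ZMod p`
-/

set_option autoImplicit false

namespace Pool.Agent.Helper85.GQ.Cls

open Finset Polynomial

/-- the functions -/
noncomputable def F (p N m : ℕ) [Fact p.Prime] (Q : ℕ) : (ZMod N)ˣ → ZMod p := fun y =>
  (pol (ZMod p) m).eval (((Q * (y : ZMod N).val % N : ℕ) : ZMod p) / (N : ZMod p))

/-- the span -/
noncomputable def V (p N m : ℕ) [Fact p.Prime] : Submodule (ZMod p) ((ZMod N)ˣ → ZMod p) :=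
  Submodule.span (ZMod p) (F p N m '' Set.Ioo 0 N)

lemma pol_map (p m : ℕ) (κ : Type) [Field κ] (f : ZMod p →+* κ) :
    pol κ m = (pol (ZMod p) m).map f := by
  rw [pol, pol, Polynomial.map_map]
  congr 1
  exact Subsingleton.elim _ _

theorem finrank_le (p N m : ℕ) [Fact p.Prime] (hpN : ¬ p ∣ N * N.totient) (hN : 2 ≤ N) (hm : 1 ≤ m)
    (hmp : m < p) (B : ValuationSubring ℂ) (hB : B.valuation (p : ℂ) < 1) :
    Module.finrank (ZMod p) (V p N m) ≤ (GP.unitSet B N m).ncard + 1 := by
  classical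
  have hp : p.Prime := Fact.out
  have hch := Pool.Agent.Y18.GX.charP_res B hp hB
  let κ := IsLocalRing.ResidueField B
  let _ : Algebra (ZMod p) κ := ZMod.algebra κ p
  have hN0 : NeZero N := ⟨by omega⟩
  obtain ⟨b, hbs, hspan, hli⟩ := exists_linearIndependent (ZMod p) (F p N m '' Set.Ioo 0 N)
  have hsurj : Set.SurjOn (F p N m) (Set.Ioo 0 N) b := hbs
  obtain ⟨s, hs, hbij⟩ := hsurj.exists_bijOn_subset
  have hsfin : s.Finite := (Set.finite_Ioo 0 N).subset hs
  let S : Finset ℕ := hsfin.toFinset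
  have hSmem : ∀ Q, Q ∈ S ↔ Q ∈ s := fun Q => hsfin.mem_toFinset
  have hind : GP.Indep ((Pool.Agent.Y18.GX.FF m).map (Int.castRingHom κ)) N S := by
    intro g hg Q hQ
    rw [← Module.forall_dual_apply_eq_zero_iff (ZMod p)]
    intro φ
    -- the relation over `ZMod p`
    have h1 : ∀ y : (ZMod N)ˣ, ∑ Q ∈ S, φ (g Q) * F p N m Q y = 0 := by
      intro y
      have h2 := hg ((y : ZMod N).val) (ZMod.val_coe_unit_coprime y)
      have h3 := congrArg φ h2
      rw [map_sum, map_zero] at h3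
      rw [← h3]
      refine Finset.sum_congr rfl fun Q _ => ?_
      have h4 : ((Pool.Agent.Y18.GX.FF m).map (Int.castRingHom κ)).eval
          (((Q * (y : ZMod N).val % N : ℕ) : κ) / (N : κ)) = algebraMap (ZMod p) κ (F p N m Q y) := by
        have h5 := pol_map p m κ (algebraMap (ZMod p) κ)
        rw [pol] at h5
        rw [h5, F, ← Polynomial.eval₂_at_apply, Polynomial.eval_map, map_div₀, map_natCast, map_natCast]
      rw [h4, mul_comm (g Q), ← Algebra.smul_def, map_smul, smul_eq_mul, mul_comm]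
    have hli' : LinearIndependent (ZMod p) (fun Q : s => F p N m (Q : ℕ)) := by
      have h6 := hli.comp (fun Q : s => (⟨F p N m (Q : ℕ), hbij.mapsTo Q.2⟩ : b)) (by
        intro Q Q' h
        apply Subtype.ext
        exact hbij.injOn Q.2 Q'.2 (congrArg Subtype.val h))
      exact h6
    have : Fintype s := hsfin.fintype
    rw [Fintype.linearIndependent_iff] at hli'
    have h7 := hli' (fun Q => φ (g (Q : ℕ))) (by
      funext y
      rw [Finset.sum_apply]
      simp only [Pi.smul_apply, smul_eq_mul, Pi.zero_apply]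
      rw [← h1 y]
      rw [← Finset.sum_coe_sort S]
      exact Fintype.sum_equiv (Equiv.subtypeEquivRight (fun Q => (hSmem Q).symm)) _ _ (fun _ => rfl))
    exact h7 ⟨Q, (hSmem Q).1 hQ⟩
  have hcard := GP.Lin.main p N m hp hpN hN hm hmp B hB S (fun Q hQ => hs ((hSmem Q).1 hQ)) hind
  refine le_trans ?_ hcard
  have h8 : V p N m = Submodule.span (ZMod p) ((S.image (F p N m) : Finset _) : Set ((ZMod N)ˣ → ZMod p)) := by
    rw [V, ← hspan]
    congr 1
    rw [Finset.coe_image, hsfin.coe_toFinset, hbij.image_eq]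
  rw [h8]
  exact (finrank_span_finset_le_card _).trans Finset.card_image_le

lemma F_mem (p N m : ℕ) [Fact p.Prime] (hN : 0 < N) (k : ℕ) : F p N m (k % N) ∈ V p N m := by
  rcases Nat.eq_zero_or_pos (k % N) with h | h
  · rw [h]
    have : F p N m 0 = 0 := by
      funext y
      simp only [F, zero_mul, Nat.zero_mod, Nat.cast_zero, zero_div, Pi.zero_apply]
      exact pol_zero _ _
    rw [this]
    exact Submodule.zero_mem _
  · exact Submodule.subset_span ⟨k % N, ⟨h, Nat.mod_lt _ hN⟩, rfl⟩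

theorem main : S_CLS := by
  classical
  intro p N m _ hpN hN hm hmp B hB G hG hcard
  have hp : p.Prime := Fact.out
  have hN0 : NeZero N := ⟨by omega⟩
  have hNpos : 0 < N := by omega
  have hrank := finrank_le p N m hpN hN hm hmp B hB
  have hVcard : Nat.card (V p N m) ≤ p ^ ((GP.unitSet B N m).ncard + 1) := by
    have h1 := Module.natCard_eq_pow_finrank (K := ZMod p) (V := V p N m)
    rw [h1, Nat.card_zmod]
    exact Nat.pow_le_pow_right hp.pos hrank
  have : Fintype (V p N m) := Fintype.ofFinite _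
  rw [Nat.card_eq_fintype_card] at hVcard
  let Ψ : Finset ℕ → (N.divisors → V p N m) := fun c d =>
    ⟨∑ b ∈ c, F p N m (b * (d : ℕ) % N), Submodule.sum_mem _ fun b _ => F_mem p N m hNpos _⟩
  have hlt : (Finset.univ : Finset (N.divisors → V p N m)).card < G.card := by
    refine lt_of_le_of_lt ?_ hcard
    rw [Finset.card_univ, Fintype.card_fun, Fintype.card_coe, pow_mul]
    exact Nat.pow_le_pow_left hVcard _
  obtain ⟨c, hc, c', hc', hne, heq⟩ := Finset.exists_ne_map_eq_of_card_lt_of_maps_to hlt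
    (f := Ψ) (fun c _ => Finset.mem_univ _)
  refine ⟨c, hc, c', hc', hne, fun x hx => ?_⟩
  -- the unit
  set d := Nat.gcd x N with hd
  have hd0 : 0 < d := Nat.gcd_pos_of_pos_right _ hNpos
  obtain ⟨x', hx'⟩ : d ∣ x := Nat.gcd_dvd_left _ _
  obtain ⟨M, hM⟩ : d ∣ N := Nat.gcd_dvd_right _ _
  have hMN : M ∣ N := ⟨d, by rw [hM]; ring⟩
  have hM0 : M ≠ 0 := by
    rintro rfl
    rw [mul_zero] at hM
    omega
  have hM0' : NeZero M := ⟨hM0⟩
  have hco : x'.Coprime M := by
    have h1 : d * Nat.gcd x' M = d * 1 := by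
      rw [← Nat.gcd_mul_left, ← hx', ← hM, mul_one]
    exact Nat.eq_of_mul_eq_mul_left hd0 h1
  obtain ⟨y, hy⟩ := ZMod.unitsMap_surjective hMN (ZMod.unitOfCoprime x' hco)
  have hy1 : (((y : ZMod N).val : ℕ) : ZMod M) = (x' : ZMod M) := by
    have h1 := congrArg (fun u : (ZMod M)ˣ => (u : ZMod M)) hy
    simp only [ZMod.coe_unitOfCoprime] at h1
    rw [ZMod.unitsMap_val] at h1
    rw [← h1, ZMod.cast_eq_val]
  have hy2 : d * (y : ZMod N).val ≡ x [MOD N] := by
    have h1 : (y : ZMod N).val ≡ x' [MOD M] := (ZMod.natCast_eq_natCast_iff _ _ _).1 hy1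
    have h2 := h1.mul_left' d
    rw [← hx', ← hM] at h2
    exact h2
  have hval : ∀ b : ℕ, F p N m (b * d % N) y =
      (pol (ZMod p) m).eval (((b * x % N : ℕ) : ZMod p) / (N : ZMod p)) := by
    intro b
    have h1 : (b * d % N) * (y : ZMod N).val % N = b * x % N := by
      have h2 : (b * d % N) * (y : ZMod N).val ≡ b * x [MOD N] :=
        calc (b * d % N) * (y : ZMod N).val ≡ (b * d) * (y : ZMod N).val [MOD N] :=
              (Nat.mod_modEq _ _).mul_right _
          _ ≡ b * x [MOD N] := by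
              rw [mul_assoc]
              exact hy2.mul_left b
      exact h2
    rw [F, h1]
  have h3 : ∀ c : Finset ℕ, ∑ b ∈ c, (pol (ZMod p) m).eval (((b * x % N : ℕ) : ZMod p) / (N : ZMod p)) =
      (Ψ c ⟨d, Nat.mem_divisors.2 ⟨⟨M, hM⟩, hNpos.ne'⟩⟩ : (ZMod N)ˣ → ZMod p) y := by
    intro c
    simp only [Ψ]
    rw [Finset.sum_apply]
    exact Finset.sum_congr rfl fun b _ => (hval b).symm
  rw [h3 c, h3 c', heq]

end Pool.Agent.Helper85.GQ.Cls
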