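import Pool.Agent.Helper85.GQ.Base

/-!
# Finite differences modulo `p`
-/

set_option autoImplicit false

namespace Pool.Agent.Helper85.GQ.Dif

open Finset Polynomial

lemma const_diff {R : Type} [CommRing R] (Q : R[X]) {m : ℕ} (hQ : Q.natDegree ≤ m) (x : ℕ) :
    ∑ i ∈ range (m + 1), (((-1 : ℤ) ^ (m - i) * ((m.choose i : ℕ) : ℤ) : ℤ) : R) * Q.eval ((x : R) + (i : R)) =
      ∑ i ∈ range (m + 1), (((-1 : ℤ) ^ (m - i) * ((m.choose i : ℕ) : ℤ) : ℤ) : R) * Q.eval (i : R) := by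
  have h0 : ∀ y : R, (fwdDiff (1 : R))^[m] Q.eval y =
      ∑ i ∈ range (m + 1), (((-1 : ℤ) ^ (m - i) * ((m.choose i : ℕ) : ℤ) : ℤ) : R) * Q.eval (y + (i : R)) := by
    intro y
    rw [fwdDiff_iter_eq_sum_shift]
    refine sum_congr rfl fun i _ => ?_
    rw [zsmul_eq_mul, nsmul_eq_mul, mul_one]
  have h1 : ∀ y : R, (fwdDiff (1 : R))^[m] Q.eval (y + 1) = (fwdDiff (1 : R))^[m] Q.eval y := by
    intro y
    have h2 := Polynomial.fwdDiff_iter_eq_zero_of_degree_lt (P := Q) (n := m + 1) (by omega)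
    rw [Function.iterate_succ_apply'] at h2
    have h3 := congrFun h2 y
    rw [fwdDiff, Pi.zero_apply] at h3
    exact sub_eq_zero.1 h3
  have h2 : ∀ x : ℕ, (fwdDiff (1 : R))^[m] Q.eval (x : R) = (fwdDiff (1 : R))^[m] Q.eval 0 := by
    intro x
    induction x with
    | zero => rw [Nat.cast_zero]
    | succ n ih => rw [Nat.cast_succ, h1, ih]
  have h3 := h2 x
  rw [h0, h0] at h3
  rw [h3]
  refine sum_congr rfl fun i _ => ?_
  rw [zero_add]

/-- the sum of the differences -/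
lemma tele {κ : Type} [Field κ] (m q : ℕ) (y : κ) : (pol κ m).eval (y + q) - (pol κ m).eval y =
    ((m.factorial * m : ℕ) : κ) * ∑ j ∈ range q, (y + j) ^ (m - 1) := by
  induction q with
  | zero => simp
  | succ q ih =>
    rw [Finset.sum_range_succ, mul_add, ← ih, ← pol_diff, Nat.cast_succ, ← add_assoc]
    ring

lemma key {κ : Type} [Field κ] {N : ℕ} (hN : (N : κ) ≠ 0) (m b x : ℕ) :
    (pol κ m).eval (((b * x : ℕ) : κ) / (N : κ)) - (pol κ m).eval (((b * x % N : ℕ) : κ) / (N : κ)) =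
      ((m.factorial * m : ℕ) : κ) * ((1 / (N : κ)) ^ (m - 1) * ((Phi N m b x : ℤ) : κ)) := by
  have hdiv : ((b * x : ℕ) : κ) = ((b * x % N : ℕ) : κ) + ((b * x / N : ℕ) : κ) * (N : κ) := by
    have h := Nat.mod_add_div (b * x) N
    have h2 := congrArg (fun k : ℕ => (k : κ)) h
    simp only [Nat.cast_add, Nat.cast_mul] at h2
    rw [Nat.cast_mul]
    rw [← h2]
    ring
  set q := b * x / N with hq
  set y : κ := ((b * x % N : ℕ) : κ) / (N : κ) with hy
  have h1 : ((b * x : ℕ) : κ) / (N : κ) = y + q := by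
    rw [hdiv, hy, add_div, mul_div_cancel_right₀ _ hN]
  rw [h1, tele]
  congr 1
  rw [Phi, Int.cast_sum, mul_sum, ← hq, ← Finset.sum_range_reflect]
  refine sum_congr rfl fun k hk => ?_
  rw [mem_range] at hk
  rw [Int.cast_pow, ← mul_pow]
  congr 1
  have h2 : ((q - 1 - k : ℕ) : κ) = (q : κ) - 1 - (k : κ) := by
    rw [Nat.cast_sub (by omega), Nat.cast_sub (by omega), Nat.cast_one]
  have h3 : (N : κ) * y = ((b * x % N : ℕ) : κ) := by
    rw [hy]
    field_simp
  rw [h2]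
  have h4 : ((((b * x : ℕ) : ℤ) - ((k : ℤ) + 1) * (N : ℤ) : ℤ) : κ) = (N : κ) * (y + ((q : κ) - 1 - k)) := by
    push_cast
    push_cast at hdiv h3
    rw [hdiv, ← h3]
    ring
  rw [h4]
  field_simp

theorem main : S_DIF := by
  intro p hp N m hpN hm hmp hmN c c' hcc hrel x hx
  have hp' := hp.out
  have hN0 : (N : ZMod p) ≠ 0 := by
    intro h
    exact hpN ((ZMod.natCast_eq_zero_iff N p).1 h)
  have hu0 : ((m.factorial * m : ℕ) : ZMod p) ≠ 0 := by
    intro h
    have h1 := (ZMod.natCast_eq_zero_iff _ p).1 h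
    rcases (hp'.dvd_mul).1 h1 with h2 | h2
    · have := (hp'.dvd_factorial).1 h2
      omega
    · have := Nat.le_of_dvd (by omega) h2
      omega
  set u : ZMod p := ((m.factorial * m : ℕ) : ZMod p) with hu
  set w : ZMod p := (1 / (N : ZMod p)) ^ (m - 1) with hw
  have hw0 : w ≠ 0 := pow_ne_zero _ (one_div_ne_zero hN0)
  -- the polynomial
  obtain ⟨Q, hQ⟩ : ∃ Q : (ZMod p)[X], Q = ∑ b ∈ c, (pol (ZMod p) m).comp (C ((b : ZMod p) / (N : ZMod p)) * X) -
      ∑ b ∈ c', (pol (ZMod p) m).comp (C ((b : ZMod p) / (N : ZMod p)) * X) := ⟨_, rfl⟩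
  have hdeg1 : ∀ b : ℕ, ((pol (ZMod p) m).comp (C ((b : ZMod p) / (N : ZMod p)) * X)).natDegree ≤ m := by
    intro b
    refine natDegree_comp_le.trans ?_
    calc (pol (ZMod p) m).natDegree * (C ((b : ZMod p) / (N : ZMod p)) * X).natDegree
        ≤ m * 1 := Nat.mul_le_mul (pol_deg _ _) ((natDegree_C_mul_le _ _).trans natDegree_X_le)
      _ = m := mul_one m
  have hdeg : Q.natDegree ≤ m := by
    rw [hQ]
    refine (natDegree_sub_le _ _).trans (max_le ?_ ?_)
    · exact natDegree_sum_le_of_forall_le _ _ fun b _ => hdeg1 b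
    · exact natDegree_sum_le_of_forall_le _ _ fun b _ => hdeg1 b
  have hev : ∀ y < N, Q.eval (y : ZMod p) =
      u * (w * (((∑ b ∈ c, Phi N m b y - ∑ b ∈ c', Phi N m b y : ℤ)) : ZMod p)) := by
    intro y hy
    have h1 : ∀ b : ℕ, ((pol (ZMod p) m).comp (C ((b : ZMod p) / (N : ZMod p)) * X)).eval (y : ZMod p) =
        (pol (ZMod p) m).eval (((b * y % N : ℕ) : ZMod p) / (N : ZMod p)) + u * (w * ((Phi N m b y : ℤ) : ZMod p)) := by
      intro b
      rw [eval_comp, eval_mul, eval_C, eval_X, div_mul_eq_mul_div, ← Nat.cast_mul]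
      have := key hN0 m b y
      rw [← this]
      ring
    rw [hQ, eval_sub, eval_finsetSum, eval_finsetSum, sum_congr rfl fun b _ => h1 b,
      sum_congr rfl fun b _ => h1 b, sum_add_distrib, sum_add_distrib, hrel y hy, Int.cast_sub, Int.cast_sum,
      Int.cast_sum, mul_sub, mul_sub, mul_sum, mul_sum, mul_sum, mul_sum]
    ring
  have hH : ∀ y, y + m < N → u * (w * (((∑ b ∈ c, hh N m b y - ∑ b ∈ c', hh N m b y : ℤ)) : ZMod p)) =
      ∑ i ∈ range (m + 1), (((-1 : ℤ) ^ (m - i) * ((m.choose i : ℕ) : ℤ) : ℤ) : ZMod p) *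
        Q.eval ((y : ZMod p) + (i : ZMod p)) := by
    intro y hy
    have h1 : ∀ i ∈ range (m + 1), (((-1 : ℤ) ^ (m - i) * ((m.choose i : ℕ) : ℤ) : ℤ) : ZMod p) *
        Q.eval ((y : ZMod p) + (i : ZMod p)) = u * (w * ((((-1 : ℤ) ^ (m - i) * ((m.choose i : ℕ) : ℤ)) *
          (∑ b ∈ c, Phi N m b (y + i) - ∑ b ∈ c', Phi N m b (y + i)) : ℤ) : ZMod p)) := by
      intro i hi
      rw [mem_range] at hi
      rw [← Nat.cast_add, hev (y + i) (by omega),
        Int.cast_mul ((-1 : ℤ) ^ (m - i) * ((m.choose i : ℕ) : ℤ)) (∑ b ∈ c, Phi N m b (y + i) - ∑ b ∈ c', Phi N m b (y + i))]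
      ring
    rw [sum_congr rfl h1, ← mul_sum, ← mul_sum, ← Int.cast_sum]
    congr 3
    unfold hh
    rw [Finset.sum_comm, Finset.sum_comm (s := c'), ← sum_sub_distrib]
    refine sum_congr rfl fun i _ => ?_
    rw [mul_sub, mul_sum, mul_sum]
  have h0 : ∀ b ∈ c ∪ c', hh N m b 0 = 0 := by
    intro b hb
    have hb' := hcc b hb
    unfold hh
    refine sum_eq_zero fun i hi => ?_
    rw [mem_range] at hi
    have h1 : b * (0 + i) / N = 0 := by
      rw [zero_add]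
      refine Nat.div_eq_of_lt (lt_of_le_of_lt ?_ hb')
      rw [mul_comm]
      exact Nat.mul_le_mul_right _ (by omega)
    rw [Phi, h1, range_zero, sum_empty, mul_zero]
  have e1 := hH x hx
  have e2 := hH 0 (by omega)
  have e3 := const_diff Q hdeg x
  rw [← e1] at e3
  have e4 : ∑ i ∈ range (m + 1), (((-1 : ℤ) ^ (m - i) * ((m.choose i : ℕ) : ℤ) : ℤ) : ZMod p) *
      Q.eval (i : ZMod p) = 0 := by
    rw [sum_congr rfl fun i _ => (by rw [Nat.cast_zero, zero_add] :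
      (((-1 : ℤ) ^ (m - i) * ((m.choose i : ℕ) : ℤ) : ℤ) : ZMod p) * Q.eval (((0 : ℕ) : ZMod p) + (i : ZMod p)) =
      (((-1 : ℤ) ^ (m - i) * ((m.choose i : ℕ) : ℤ) : ℤ) : ZMod p) * Q.eval (i : ZMod p))] at e2
    rw [← e2, sum_eq_zero fun b hb => h0 b (mem_union_left _ hb), sum_eq_zero fun b hb => h0 b (mem_union_right _ hb),
      sub_zero, Int.cast_zero, mul_zero, mul_zero]
  rw [e4] at e3
  have e5 : ((((∑ b ∈ c, hh N m b x - ∑ b ∈ c', hh N m b x : ℤ)) : ZMod p)) = 0 := by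
    rcases mul_eq_zero.1 e3 with h | h
    · exact absurd h hu0
    · rcases mul_eq_zero.1 h with h | h
      · exact absurd h hw0
      · exact h
  exact (ZMod.intCast_zmod_eq_zero_iff_dvd _ p).1 e5

end Pool.Agent.Helper85.GQ.Dif
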