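import Pool.Agent.Helper85.GQ.Base

/-!
# FOU: Fourier inversion on the units modulo `N`
-/

set_option autoImplicit false

namespace Pool.Agent.Helper85.GQ.Fou

open Finset Polynomial

/-- a unit between `N / 3` and `N / 2` -/
lemma special (N : ℕ) (hN : 13 ≤ N) : ∃ a : ℕ, a.Coprime N ∧ N ≤ 3 * a ∧ 2 * a < N := by
  rcases Nat.even_or_odd N with h | h
  · obtain ⟨k, hk⟩ := h
    rcases Nat.even_or_odd k with h2 | h2
    · -- N = 4 j, a = k - 1
      obtain ⟨j, hj⟩ := h2
      refine ⟨k - 1, ?_, by omega, by omega⟩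
      have hodd : Odd (k - 1) := ⟨j - 1, by omega⟩
      have h3 : (k - 1).Coprime 2 := Nat.coprime_two_right.2 hodd
      have h4 : N = 2 + 2 * (k - 1) := by omega
      rw [h4]
      exact (Nat.coprime_add_mul_right_right (k - 1) 2 2).2 h3
    · obtain ⟨j, hj⟩ := h2
      refine ⟨k - 2, ?_, by omega, by omega⟩
      have hodd : Odd (k - 2) := ⟨j - 1, by omega⟩
      have h3 : (k - 2).Coprime 2 := Nat.coprime_two_right.2 hodd
      have h3' : (k - 2).Coprime 4 := by
        have : (k - 2).Coprime (2 * 2) := Nat.Coprime.mul_right h3 h3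
        exact this
      have h4 : N = 4 + 2 * (k - 2) := by omega
      rw [h4]
      exact (Nat.coprime_add_mul_right_right (k - 2) 4 2).2 h3'
  · obtain ⟨k, hk⟩ := h
    refine ⟨k, ?_, by omega, by omega⟩
    have h4 : N = 1 + 2 * k := by omega
    rw [h4]
    exact (Nat.coprime_add_mul_right_right k 1 2).2 (Nat.coprime_one_right k)

theorem main : S_NVM → S_FOU := by
  intro hNV N m hN13 hm Bs e M hBs hrel b0 hb0
  have : NeZero N := ⟨by omega⟩
  obtain ⟨f, hf⟩ : ∃ f : ZMod N → ℂ, ∀ z, f z = (pol ℂ m).eval (((z.val : ℕ) : ℂ) / (N : ℂ)) :=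
    ⟨_, fun _ => rfl⟩
  have hrel' : ∀ z : ZMod N, ∑ b ∈ Bs, (e b : ℂ) * f ((b : ZMod N) * z) = M * f z := by
    intro z
    have h := hrel z.val (ZMod.val_lt z)
    rw [hf, ← h]
    refine Finset.sum_congr rfl fun b _ => ?_
    have h1 : ((b : ZMod N) * z).val = b * z.val % N := by
      rw [← ZMod.val_natCast, Nat.cast_mul, ZMod.natCast_zmod_val]
    rw [hf, h1]
  have hcop : ∀ b ∈ Bs, IsUnit (b : ZMod N) := fun b hb =>
    (ZMod.isUnit_iff_coprime b N).2 (hBs b hb).2.2
  have hD : ∀ χ : DirichletCharacter ℂ N, χ ≠ 1 → χ (-1) = (-1) ^ m →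
      ∑ b ∈ Bs, (e b : ℂ) * χ b = M := by
    intro χ hχ hpar
    have hpar' : χ⁻¹ (-1) = (-1) ^ m := by
      rw [MulChar.inv_apply_eq_inv', hpar, ← inv_pow]
      norm_num
    obtain ⟨a, ha⟩ := hNV N m hm χ⁻¹ (by simpa using hχ) hpar'
    obtain ⟨S, hS⟩ : ∃ S : ℂ, S = ∑ t : (ZMod N)ˣ, χ⁻¹ (t : ZMod N) * f ((t : ZMod N) * a) :=
      ⟨_, rfl⟩
    have hS0 : S ≠ 0 := by
      rw [hS]
      simp only [hf]
      exact ha
    have h1 : ∀ b ∈ Bs, ∑ t : (ZMod N)ˣ, χ⁻¹ (t : ZMod N) *
        f ((b : ZMod N) * ((t : ZMod N) * a)) = χ b * S := by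
      intro b hb
      obtain ⟨ub, hub⟩ := hcop b hb
      rw [hS, Finset.mul_sum]
      refine Fintype.sum_equiv (Equiv.mulLeft ub) _ _ fun t => ?_
      rw [Equiv.coe_mulLeft, Units.val_mul, map_mul, hub]
      have h2 : χ (b : ZMod N) * χ⁻¹ (b : ZMod N) = 1 := by
        rw [← MulChar.mul_apply, mul_inv_cancel, MulChar.one_apply (hcop b hb)]
      rw [mul_assoc (b : ZMod N)]
      linear_combination (-(χ⁻¹ (t : ZMod N)) * f ((b : ZMod N) * ((t : ZMod N) * a))) * h2
    have h2 : ∑ b ∈ Bs, (e b : ℂ) * (χ b * S) = M * S := by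
      calc ∑ b ∈ Bs, (e b : ℂ) * (χ b * S)
          = ∑ b ∈ Bs, (e b : ℂ) * ∑ t : (ZMod N)ˣ, χ⁻¹ (t : ZMod N) *
              f ((b : ZMod N) * ((t : ZMod N) * a)) :=
            Finset.sum_congr rfl fun b hb => by rw [h1 b hb]
        _ = ∑ t : (ZMod N)ˣ, χ⁻¹ (t : ZMod N) *
              ∑ b ∈ Bs, (e b : ℂ) * f ((b : ZMod N) * ((t : ZMod N) * a)) := by
            simp_rw [Finset.mul_sum]
            rw [Finset.sum_comm]
            refine Finset.sum_congr rfl fun t _ => Finset.sum_congr rfl fun b _ => ?_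
            ring
        _ = M * S := by
            rw [hS, Finset.mul_sum]
            refine Finset.sum_congr rfl fun t _ => ?_
            rw [hrel']
            ring
    have h3 : (∑ b ∈ Bs, (e b : ℂ) * χ b) * S = M * S := by
      rw [← h2, Finset.sum_mul]
      refine Finset.sum_congr rfl fun b _ => ?_
      ring
    exact mul_right_cancel₀ hS0 h3
  -- the values
  have key : ∀ u : ZMod N, IsUnit u →
      (N.totient : ℂ) * (∑ b ∈ Bs, (e b : ℂ) * ((if u = (b : ZMod N) then 1 else 0) +
        (-1) ^ m * (if u = -(b : ZMod N) then 1 else 0)) -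
        M * ((if u = 1 then 1 else 0) + (-1) ^ m * (if u = -1 then 1 else 0))) =
      (1 + (-1) ^ m) * (∑ b ∈ Bs, (e b : ℂ) - M) := by
    intro u hu
    have horth : ∀ v : ZMod N, ∑ χ : DirichletCharacter ℂ N, χ u⁻¹ * χ v =
        if u = v then (N.totient : ℂ) else 0 := fun v =>
      DirichletCharacter.sum_char_inv_mul_char_eq ℂ hu v
    have e1 : ∀ v : ZMod N, (N.totient : ℂ) * (if u = v then 1 else 0) =
        ∑ χ : DirichletCharacter ℂ N, χ u⁻¹ * χ v := by
      intro v
      rw [horth]
      split_ifs <;> ring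
    have e2 : (N.totient : ℂ) * (∑ b ∈ Bs, (e b : ℂ) * ((if u = (b : ZMod N) then 1 else 0) +
        (-1) ^ m * (if u = -(b : ZMod N) then 1 else 0)) -
        M * ((if u = 1 then 1 else 0) + (-1) ^ m * (if u = -1 then 1 else 0))) =
        ∑ χ : DirichletCharacter ℂ N, χ u⁻¹ * (1 + (-1) ^ m * χ (-1)) *
          (∑ b ∈ Bs, (e b : ℂ) * χ b - M) := by
      have e3 : ∀ v : ZMod N, (N.totient : ℂ) * ((if u = v then 1 else 0) +
          (-1) ^ m * (if u = -v then 1 else 0)) =
          ∑ χ : DirichletCharacter ℂ N, χ u⁻¹ * (1 + (-1) ^ m * χ (-1)) * χ v := by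
        intro v
        calc (N.totient : ℂ) * ((if u = v then 1 else 0) +
          (-1) ^ m * (if u = -v then 1 else 0)) = (N.totient : ℂ) * (if u = v then 1 else 0) +
          (-1) ^ m * ((N.totient : ℂ) * (if u = -v then 1 else 0)) := by ring
          _ = _ := by
            rw [e1, e1, Finset.mul_sum, ← Finset.sum_add_distrib]
            refine Finset.sum_congr rfl fun χ _ => ?_
            rw [← neg_one_mul v, map_mul]
            ring
      calc _ = ∑ b ∈ Bs, (e b : ℂ) * ((N.totient : ℂ) * ((if u = (b : ZMod N) then 1 else 0) +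
              (-1) ^ m * (if u = -(b : ZMod N) then 1 else 0))) -
            M * ((N.totient : ℂ) * ((if u = 1 then 1 else 0) +
              (-1) ^ m * (if u = -1 then 1 else 0))) := by
            rw [mul_sub, Finset.mul_sum]
            congr 1
            · refine Finset.sum_congr rfl fun b _ => ?_
              ring
            · ring
        _ = _ := by
            rw [e3 1]
            simp_rw [e3]
            rw [Finset.mul_sum]
            simp_rw [Finset.mul_sum]
            rw [Finset.sum_comm, ← Finset.sum_sub_distrib]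
            refine Finset.sum_congr rfl fun χ _ => ?_
            rw [mul_sub, Finset.mul_sum]
            congr 1
            · refine Finset.sum_congr rfl fun b _ => ?_
              ring
            · rw [map_one]
              ring
    rw [e2, Finset.sum_eq_single (1 : DirichletCharacter ℂ N)]
    · have h1 : (1 : DirichletCharacter ℂ N) u⁻¹ = 1 := by
        refine MulChar.one_apply ?_
        obtain ⟨w, rfl⟩ := hu
        rw [ZMod.inv_coe_unit]
        exact Units.isUnit _
      have h2 : (1 : DirichletCharacter ℂ N) (-1) = 1 := MulChar.one_apply (isUnit_one.neg)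
      rw [h1, h2]
      have h3 : ∑ b ∈ Bs, (e b : ℂ) * (1 : DirichletCharacter ℂ N) b = ∑ b ∈ Bs, (e b : ℂ) :=
        Finset.sum_congr rfl fun b hb => by rw [MulChar.one_apply (hcop b hb), mul_one]
      rw [h3]
      ring
    · intro χ _ hχ
      have hsq : χ (-1) * χ (-1) = 1 := by
        rw [← map_mul]
        simp
      have hcase : χ (-1) = 1 ∨ χ (-1) = -1 := mul_self_eq_one_iff.1 hsq
      by_cases hp : χ (-1) = (-1) ^ m
      · rw [hD χ hχ hp, sub_self, mul_zero]
      · have h0 : 1 + (-1) ^ m * χ (-1) = 0 := by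
          rcases neg_one_pow_eq_or ℂ m with hm1 | hm1
          · rw [hm1] at hp ⊢
            rcases hcase with h | h
            · exact absurd h hp
            · rw [h]; ring
          · rw [hm1] at hp ⊢
            rcases hcase with h | h
            · rw [h]; ring
            · exact absurd h hp
        rw [h0, mul_zero, zero_mul]
    · intro h
      exact absurd (Finset.mem_univ _) h
  have htot : (N.totient : ℂ) ≠ 0 := by
    have : 0 < N.totient := Nat.totient_pos.2 (by omega)
    exact_mod_cast this.ne'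
  -- natural numbers below `N`
  have hinj : ∀ x y : ℕ, x < N → y < N → ((x : ZMod N) = y ↔ x = y) := by
    intro x y hx hy
    rw [ZMod.natCast_eq_natCast_iff', Nat.mod_eq_of_lt hx, Nat.mod_eq_of_lt hy]
  have hneg : ∀ x y : ℕ, x + y < N → 0 < x + y → ¬ (x : ZMod N) = -(y : ZMod N) := by
    intro x y hx hy h
    have h1 : ((x + y : ℕ) : ZMod N) = 0 := by
      push_cast
      rw [h]
      ring
    rw [ZMod.natCast_eq_zero_iff] at h1
    exact absurd (Nat.le_of_dvd hy h1) (by omega)
  have hb2 : ∀ b ∈ Bs, 2 ≤ b ∧ 2 * b < N := by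
    intro b hb
    refine ⟨(hBs b hb).1, ?_⟩
    have h1 := (hBs b hb).2.1
    have h2 : 2 * b ≤ (m + 1) * b := Nat.mul_le_mul_right b (by omega)
    omega
  have hzero : (1 + (-1 : ℂ) ^ m) * (∑ b ∈ Bs, (e b : ℂ) - M) = 0 := by
    rcases Nat.even_or_odd m with hme | hmo
    · obtain ⟨a, ha1, ha2, ha3⟩ := special N hN13
      have h1 := key (a : ZMod N) ((ZMod.isUnit_iff_coprime a N).2 ha1)
      rw [← h1]
      have h3 : ∑ b ∈ Bs, (e b : ℂ) * ((if (a : ZMod N) = (b : ZMod N) then 1 else 0) +
        (-1) ^ m * (if (a : ZMod N) = -(b : ZMod N) then 1 else 0)) = 0 := by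
        refine Finset.sum_eq_zero fun b hb => ?_
        have h4 : 3 * b ≤ (m + 1) * b := by
          refine Nat.mul_le_mul_right b ?_
          obtain ⟨j, hj⟩ := hme
          omega
        have h5 := (hBs b hb).2.1
        rw [if_neg, if_neg]
        · ring
        · refine hneg a b ?_ ?_ <;> omega
        · rw [hinj a b (by omega) (by omega)]
          omega
      rw [h3, if_neg, if_neg]
      · ring
      · have := hneg a 1 (by omega) (by omega)
        rwa [Nat.cast_one] at this
      · have := hinj a 1 (by omega) (by omega)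
        rw [Nat.cast_one] at this
        rw [this]
        omega
    · rw [hmo.neg_one_pow]
      ring
  have h1 := key (b0 : ZMod N) (hcop b0 hb0)
  rw [hzero] at h1
  have h2 := (mul_eq_zero.1 h1).resolve_left htot
  have hb0' := hb2 b0 hb0
  rw [if_neg, if_neg] at h2
  · have h3 : ∑ b ∈ Bs, (e b : ℂ) * ((if (b0 : ZMod N) = (b : ZMod N) then 1 else 0) +
        (-1) ^ m * (if (b0 : ZMod N) = -(b : ZMod N) then 1 else 0)) = (e b0 : ℂ) := by
      rw [Finset.sum_eq_single b0]
      · rw [if_pos rfl, if_neg (hneg b0 b0 (by omega) (by omega))]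
        ring
      · intro b hb hne
        have hb' := hb2 b hb
        rw [if_neg, if_neg]
        · ring
        · exact hneg b0 b (by omega) (by omega)
        · rw [hinj b0 b (by omega) (by omega)]
          exact fun h => hne h.symm
      · intro h
        exact absurd hb0 h
    rw [h3] at h2
    have h4 : (e b0 : ℂ) = 0 := by
      rw [← h2]
      ring
    exact_mod_cast h4
  · have := hneg b0 1 (by omega) (by omega)
    rwa [Nat.cast_one] at this
  · have := hinj b0 1 (by omega) (by omega)
    rw [Nat.cast_one] at this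
    rw [this]
    omega

end Pool.Agent.Helper85.GQ.Fou
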