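import Pool.Agent.Helper85.GQ.Base

/-!
# Hoeffding's inequality for subsets (module HOE)
-/

set_option autoImplicit false

namespace Pool.Agent.Helper85.GQ.Hoe

open Finset

lemma mgf (Bs : Finset ℕ) (h : ℕ → ℝ) (t : ℝ) :
    ∑ c ∈ Bs.powerset, Real.exp (t * (∑ b ∈ c, h b - (∑ b ∈ Bs, h b) / 2)) =
      ∏ b ∈ Bs, (Real.exp (t * h b / 2) + Real.exp (-(t * h b / 2))) := by
  rw [Finset.prod_add]
  refine Finset.sum_congr rfl fun c hc => ?_
  have hc' : c ⊆ Bs := Finset.mem_powerset.1 hc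
  rw [← Real.exp_sum, ← Real.exp_sum, ← Real.exp_add]
  congr 1
  have h1 : ∑ b ∈ Bs, h b = ∑ b ∈ Bs \ c, h b + ∑ b ∈ c, h b := (Finset.sum_sdiff hc').symm
  rw [h1]
  have h2 : ∑ b ∈ c, t * h b / 2 = t / 2 * ∑ b ∈ c, h b := by
    rw [Finset.mul_sum]; refine Finset.sum_congr rfl fun b _ => by ring
  have h3 : ∑ b ∈ Bs \ c, -(t * h b / 2) = -(t / 2) * ∑ b ∈ Bs \ c, h b := by
    rw [Finset.mul_sum]; refine Finset.sum_congr rfl fun b _ => by ring
  rw [h2, h3]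
  ring

lemma mgf_le (Bs : Finset ℕ) (h : ℕ → ℝ) (v t : ℝ) (hv : ∑ b ∈ Bs, h b ^ 2 ≤ v) :
    ∑ c ∈ Bs.powerset, Real.exp (t * (∑ b ∈ c, h b - (∑ b ∈ Bs, h b) / 2)) ≤
      2 ^ Bs.card * Real.exp (t ^ 2 * v / 8) := by
  rw [mgf]
  have h1 : ∏ b ∈ Bs, (Real.exp (t * h b / 2) + Real.exp (-(t * h b / 2))) ≤
      ∏ b ∈ Bs, (2 * Real.exp (t ^ 2 * h b ^ 2 / 8)) := by
    refine Finset.prod_le_prod (fun b _ => by positivity) fun b _ => ?_
    have h2 := Real.cosh_le_exp_half_sq (t * h b / 2)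
    rw [Real.cosh_eq] at h2
    have h3 : (t * h b / 2) ^ 2 / 2 = t ^ 2 * h b ^ 2 / 8 := by ring
    rw [h3] at h2
    linarith
  refine h1.trans ?_
  rw [Finset.prod_mul_distrib, Finset.prod_const, ← Real.exp_sum]
  refine mul_le_mul_of_nonneg_left (Real.exp_le_exp.2 ?_) (by positivity)
  rw [← Finset.sum_div, ← Finset.mul_sum]
  have := mul_le_mul_of_nonneg_left hv (sq_nonneg t)
  linarith

lemma half (Bs : Finset ℕ) (h : ℕ → ℝ) (v lam : ℝ) (hv0 : 0 < v) (hl : 0 ≤ lam)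
    (hv : ∑ b ∈ Bs, h b ^ 2 ≤ v) :
    ((Bs.powerset.filter fun c => lam ≤ ∑ b ∈ c, h b - (∑ b ∈ Bs, h b) / 2).card : ℝ) ≤
      2 ^ Bs.card * Real.exp (-2 * lam ^ 2 / v) := by
  have h1 := mgf_le Bs h v (4 * lam / v) hv
  have h2 : ((Bs.powerset.filter fun c => lam ≤ ∑ b ∈ c, h b - (∑ b ∈ Bs, h b) / 2).card : ℝ) *
      Real.exp (4 * lam / v * lam) ≤
      ∑ c ∈ Bs.powerset, Real.exp (4 * lam / v * (∑ b ∈ c, h b - (∑ b ∈ Bs, h b) / 2)) := by
    rw [← nsmul_eq_mul, ← Finset.sum_const]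
    refine (Finset.sum_le_sum fun c hc => ?_).trans
      (Finset.sum_le_sum_of_subset_of_nonneg (Finset.filter_subset _ _) fun c _ _ => (Real.exp_pos _).le)
    have hc := (Finset.mem_filter.1 hc).2
    exact Real.exp_le_exp.2 (mul_le_mul_of_nonneg_left hc (by positivity))
  have h3 := h2.trans h1
  have h4 : Real.exp (-2 * lam ^ 2 / v) =
      Real.exp ((4 * lam / v) ^ 2 * v / 8) * Real.exp (-(4 * lam / v * lam)) := by
    rw [← Real.exp_add]
    congr 1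
    field_simp
    ring
  rw [h4, ← mul_assoc]
  have h5 : ((Bs.powerset.filter fun c => lam ≤ ∑ b ∈ c, h b - (∑ b ∈ Bs, h b) / 2).card : ℝ) =
      (((Bs.powerset.filter fun c => lam ≤ ∑ b ∈ c, h b - (∑ b ∈ Bs, h b) / 2).card : ℝ) *
      Real.exp (4 * lam / v * lam)) * Real.exp (-(4 * lam / v * lam)) := by
    rw [mul_assoc, ← Real.exp_add, add_neg_cancel, Real.exp_zero, mul_one]
  rw [h5]
  exact mul_le_mul_of_nonneg_right h3 (Real.exp_pos _).le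

theorem main : S_HOE := by
  intro Bs h v lam hv0 hl hv
  have h1 := half Bs h v lam hv0 hl hv
  have h2 := half Bs (fun b => - h b) v lam hv0 hl (by simpa using hv)
  have h3 : (Bs.powerset.filter fun c => lam ≤ |∑ b ∈ c, h b - (∑ b ∈ Bs, h b) / 2|) ⊆
      (Bs.powerset.filter fun c => lam ≤ ∑ b ∈ c, h b - (∑ b ∈ Bs, h b) / 2) ∪
      (Bs.powerset.filter fun c => lam ≤ ∑ b ∈ c, (fun b => - h b) b -
        (∑ b ∈ Bs, (fun b => - h b) b) / 2) := by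
    intro c hc
    rw [Finset.mem_filter] at hc
    rw [Finset.mem_union, Finset.mem_filter, Finset.mem_filter]
    rcases le_abs.1 hc.2 with h | h
    · exact Or.inl ⟨hc.1, h⟩
    · refine Or.inr ⟨hc.1, ?_⟩
      simp only [Finset.sum_neg_distrib]
      linarith
  have h4 : ((Bs.powerset.filter fun c => lam ≤ |∑ b ∈ c, h b - (∑ b ∈ Bs, h b) / 2|).card : ℝ) ≤
      ((Bs.powerset.filter fun c => lam ≤ ∑ b ∈ c, h b - (∑ b ∈ Bs, h b) / 2).card : ℝ) +
      ((Bs.powerset.filter fun c => lam ≤ ∑ b ∈ c, (fun b => - h b) b -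
        (∑ b ∈ Bs, (fun b => - h b) b) / 2).card : ℝ) := by
    exact_mod_cast (Finset.card_le_card h3).trans (Finset.card_union_le _ _)
  linarith

end Pool.Agent.Helper85.GQ.Hoe
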