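import Pool.Agent.Helper85.GQ.Base

/-!
# Module LOC (helper67): the `m`-th difference of `Phi`
-/

set_option autoImplicit false

namespace Pool.Agent.Helper85.GQ.Loc

open Finset Polynomial

/-- the `m`-th difference of a power of a linear function -/
lemma diff_zero (m : ℕ) (hm : 1 ≤ m) (b c : ℤ) :
    ∑ i ∈ range (m + 1), (-1) ^ (m - i) * ((m.choose i : ℕ) : ℤ) * (b * (i : ℤ) + c) ^ (m - 1) = 0 := by
  have h1 : ((C b * X + C c : ℤ[X]) ^ (m - 1)).natDegree < m := by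
    refine lt_of_le_of_lt (natDegree_pow_le_of_le (m - 1) (natDegree_linear_le (a := b) (b := c))) ?_
    omega
  have h2 := congrFun (fwdDiff_iter_eq_zero_of_degree_lt h1) 0
  rw [fwdDiff_iter_eq_sum_shift] at h2
  rw [Pi.zero_apply] at h2
  rw [← h2]
  refine Finset.sum_congr rfl fun i _ => ?_
  simp

/-- the extra term -/
def ex (N m b x i : ℕ) : ℤ :=
  if b * (x + i) / N = b * x / N then 0
  else (((b * (x + i) : ℕ) : ℤ) - (((b * x / N : ℕ) : ℤ) + 1) * (N : ℤ)) ^ (m - 1)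

lemma div_cases {N m b x i : ℕ} (hN : 0 < N) (hb : m * b < N) (hi : i ≤ m) :
    b * (x + i) / N = b * x / N ∨ b * (x + i) / N = b * x / N + 1 := by
  have h1 : b * x / N ≤ b * (x + i) / N := Nat.div_le_div_right (by nlinarith)
  have h2 : b * (x + i) / N < b * x / N + 2 := by
    rw [Nat.div_lt_iff_lt_mul hN]
    have h3 := Nat.lt_div_mul_add hN (a := b * x)
    have h4 : b * i ≤ m * b := by nlinarith
    nlinarith
  omega

lemma Phi_eq {N m b x i : ℕ} (hN : 0 < N) (hb : m * b < N) (hi : i ≤ m) :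
    Phi N m b (x + i) = ∑ k ∈ range (b * x / N),
      ((b : ℤ) * (i : ℤ) + (((b * x : ℕ) : ℤ) - ((k : ℤ) + 1) * (N : ℤ))) ^ (m - 1) + ex N m b x i := by
  have h0 : ∀ k : ℕ, (((b * (x + i) : ℕ) : ℤ) - ((k : ℤ) + 1) * (N : ℤ)) =
      ((b : ℤ) * (i : ℤ) + (((b * x : ℕ) : ℤ) - ((k : ℤ) + 1) * (N : ℤ))) := by
    intro k
    push_cast
    ring
  unfold Phi ex
  rcases div_cases (x := x) hN hb hi with h | h
  · rw [if_pos h, h, add_zero]
    exact Finset.sum_congr rfl fun k _ => by rw [h0]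
  · rw [if_neg (by omega), h, Finset.sum_range_succ]
    congr 1
    exact Finset.sum_congr rfl fun k _ => by rw [h0]

lemma hh_eq {N m b x : ℕ} (hN : 0 < N) (hm : 1 ≤ m) (hb : m * b < N) :
    hh N m b x = ∑ i ∈ range (m + 1), (-1) ^ (m - i) * ((m.choose i : ℕ) : ℤ) * ex N m b x i := by
  unfold hh
  have h1 : ∀ i ∈ range (m + 1), (-1 : ℤ) ^ (m - i) * ((m.choose i : ℕ) : ℤ) * Phi N m b (x + i) =
      ∑ k ∈ range (b * x / N), (-1) ^ (m - i) * ((m.choose i : ℕ) : ℤ) *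
        ((b : ℤ) * (i : ℤ) + (((b * x : ℕ) : ℤ) - ((k : ℤ) + 1) * (N : ℤ))) ^ (m - 1) +
      (-1) ^ (m - i) * ((m.choose i : ℕ) : ℤ) * ex N m b x i := by
    intro i hi
    rw [Phi_eq hN hb (Nat.lt_succ_iff.1 (mem_range.1 hi)), mul_add, Finset.mul_sum]
  rw [Finset.sum_congr rfl h1, Finset.sum_add_distrib, Finset.sum_comm,
    Finset.sum_eq_zero fun k _ => diff_zero m hm _ _, zero_add]

lemma ex_bound {N m b x i : ℕ} (hN : 0 < N) (hb : m * b < N) (hi : i ≤ m) :
    0 ≤ ex N m b x i ∧ ex N m b x i ≤ ((m * b : ℕ) : ℤ) ^ (m - 1) := by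
  unfold ex
  split_ifs with h
  · exact ⟨le_rfl, by positivity⟩
  · have h1 := (div_cases (x := x) hN hb hi).resolve_left h
    have h2 : (b * x / N + 1) * N ≤ b * (x + i) := by
      rw [← h1]
      exact Nat.div_mul_le_self _ _
    have h3 := Nat.lt_div_mul_add hN (a := b * x)
    have h4 : b * i ≤ m * b := by nlinarith
    have h5 : (0 : ℤ) ≤ ((b * (x + i) : ℕ) : ℤ) - (((b * x / N : ℕ) : ℤ) + 1) * (N : ℤ) := by
      have := (Nat.cast_le (α := ℤ)).2 h2
      push_cast at this ⊢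
      linarith
    have h6 : ((b * (x + i) : ℕ) : ℤ) - (((b * x / N : ℕ) : ℤ) + 1) * (N : ℤ) ≤ ((m * b : ℕ) : ℤ) := by
      have h7 : b * (x + i) ≤ m * b + (b * x / N + 1) * N := by nlinarith
      have := (Nat.cast_le (α := ℤ)).2 h7
      push_cast at this ⊢
      linarith
    exact ⟨pow_nonneg h5 _, pow_le_pow_left₀ h5 h6 _⟩

theorem main : S_LOC := by
  intro N m b x hN hm hb
  constructor
  · intro h
    rw [hh_eq hN hm hb]
    refine Finset.sum_eq_zero fun i hi => ?_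
    have hi' : i ≤ m := Nat.lt_succ_iff.1 (mem_range.1 hi)
    have h1 : b * (x + i) / N = b * x / N := by
      refine le_antisymm ?_ (Nat.div_le_div_right (by nlinarith))
      rw [h]
      exact Nat.div_le_div_right (by nlinarith)
    rw [ex, if_pos h1, mul_zero]
  · rw [hh_eq hN hm hb]
    refine (Finset.abs_sum_le_sum_abs _ _).trans ?_
    have h1 : ∀ i ∈ range (m + 1), |(-1 : ℤ) ^ (m - i) * ((m.choose i : ℕ) : ℤ) * ex N m b x i| ≤
        ((m.choose i : ℕ) : ℤ) * ((m * b : ℕ) : ℤ) ^ (m - 1) := by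
      intro i hi
      have h2 := ex_bound (x := x) hN hb (Nat.lt_succ_iff.1 (mem_range.1 hi))
      rw [abs_mul, abs_mul, abs_pow, abs_neg, abs_one, one_pow, one_mul, Nat.abs_cast,
        abs_of_nonneg h2.1]
      exact mul_le_mul_of_nonneg_left h2.2 (by positivity)
    refine (Finset.sum_le_sum h1).trans (le_of_eq ?_)
    rw [← Finset.sum_mul]
    congr 1
    have h3 := Nat.sum_range_choose m
    exact_mod_cast h3

end Pool.Agent.Helper85.GQ.Loc
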