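import Mathlib
import Pool.Agent.Helper85.GQ.Base
import Pool.Graph.R_seed8.H916R2.OddChar

/-!
# Nonvanishing of `L(m, ψ)`, in terms of the sums of Bernoulli polynomials
-/

set_option autoImplicit false

namespace Pool.Agent.Helper85.GQ.Nvm

open Finset Polynomial Complex Real

/-- the value of `pol` at `b / N` -/
lemma pol_val (N m : ℕ) (b : ZMod N) : (pol ℂ m).eval ((b.val : ℂ) / (N : ℂ)) =
    ((m.factorial : ℕ) : ℂ) * ((bernoulliFun m ((b.val : ℝ) / N) : ℝ) : ℂ) -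
      ((m.factorial : ℕ) : ℂ) * ((_root_.bernoulli m : ℚ) : ℂ) := by
  have h1 := Pool.Agent.Y18.GX.FF_eval m ((b.val : ℚ) / N)
  have h2 : (pol ℂ m).eval ((b.val : ℂ) / (N : ℂ)) =
      aeval ((((b.val : ℚ) / N : ℚ)) : ℂ) (Pool.Agent.Y18.GX.FF m) := by
    rw [pol, eval_map, aeval_def]
    push_cast
    rfl
  rw [h2, h1, mul_sub]
  congr 2
  have h3 : (((Polynomial.bernoulli m).eval ((b.val : ℚ) / N) : ℚ) : ℝ) =
      bernoulliFun m ((b.val : ℝ) / N) := by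
    rw [bernoulliFun, eval_map]
    have := Polynomial.eval₂_at_apply (p := Polynomial.bernoulli m) (algebraMap ℚ ℝ) ((b.val : ℚ) / N)
    simp only [eq_ratCast] at this
    rw [← this]
    push_cast
    rfl
  rw [← h3]
  norm_cast

/-- the sum of a nontrivial character over the units -/
lemma sum_units {N : ℕ} [NeZero N] {ψ : DirichletCharacter ℂ N} (h : ψ ≠ 1) :
    ∑ t : (ZMod N)ˣ, ψ (t : ZMod N) = 0 := by
  obtain ⟨u, hu⟩ := MulChar.ne_one_iff.1 h
  have h1 : ψ (u : ZMod N) * ∑ t : (ZMod N)ˣ, ψ (t : ZMod N) = ∑ t : (ZMod N)ˣ, ψ (t : ZMod N) := by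
    rw [mul_sum]
    refine Fintype.sum_equiv (Equiv.mulLeft u) _ _ fun t => ?_
    simp
  have h2 : (ψ (u : ZMod N) - 1) * ∑ t : (ZMod N)ˣ, ψ (t : ZMod N) = 0 := by
    rw [sub_mul, one_mul, h1, sub_self]
  exact (mul_eq_zero.1 h2).resolve_left (sub_ne_zero.2 hu)

/-- the case `m = 1` -/
lemma main_one (N : ℕ) [NeZero N] (ψ : DirichletCharacter ℂ N) (h : ψ ≠ 1) (hodd : ψ (-1) = -1) :
    ∃ a : ZMod N, ∑ t : (ZMod N)ˣ, ψ (t : ZMod N) *
      (pol ℂ 1).eval (((((t : ZMod N) * a).val : ℕ) : ℂ) / (N : ℂ)) ≠ 0 := by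
  obtain ⟨a, ha⟩ := Pool.Agent.H916R2.exists_SS_ne_zero ψ hodd
  have hN : (N : ℂ) ≠ 0 := Nat.cast_ne_zero.2 (NeZero.ne N)
  have ha0 : a ≠ 0 := by
    rintro rfl
    apply ha
    unfold Pool.Agent.H916R2.SS
    simp [Pool.Agent.H916R2.saw]
  refine ⟨a, fun h0 => ha ?_⟩
  unfold Pool.Agent.H916R2.SS
  have h1 : ∀ t : (ZMod N)ˣ, ψ (t : ZMod N) * (Pool.Agent.H916R2.saw ((t : ZMod N) * a) : ℂ) =
      2 * N * (ψ (t : ZMod N) * (pol ℂ 1).eval (((((t : ZMod N) * a).val : ℕ) : ℂ) / (N : ℂ))) -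
        N * ψ (t : ZMod N) := by
    intro t
    have h2 : (t : ZMod N) * a ≠ 0 := fun h => ha0 ((Units.mul_right_eq_zero t).1 h)
    rw [pol_val, Pool.Agent.H916R2.saw, if_neg h2]
    rw [bernoulliFun_one, _root_.bernoulli_one]
    push_cast
    field_simp
    ring
  rw [Finset.sum_congr rfl fun t _ => h1 t, Finset.sum_sub_distrib, ← mul_sum, ← mul_sum, h0,
    sum_units h]
  simp

/-- orthogonality -/
lemma orth (N : ℕ) [NeZero N] (c : ZMod N) :
    ∑ a : ZMod N, ZMod.stdAddChar (N := N) (-a) * ZMod.stdAddChar (N := N) (c * a) =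
      if c = 1 then (N : ℂ) else 0 := by
  have h1 := AddChar.sum_mulShift (ψ := ZMod.stdAddChar (N := N)) (c - 1)
    (ZMod.isPrimitive_stdAddChar N)
  rw [ZMod.card] at h1
  have h2 : (c - 1 = 0) ↔ c = 1 := sub_eq_zero
  simp only [h2] at h1
  push_cast at h1
  rw [← h1]
  refine Finset.sum_congr rfl fun a _ => ?_
  rw [← AddChar.map_add_eq_mul]
  congr 1
  ring

/-- `ψ⁻¹` at an integer as a sum over the units -/
lemma inv_sum {N : ℕ} [NeZero N] (ψ : DirichletCharacter ℂ N) (n : ZMod N) :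
    ∑ t : (ZMod N)ˣ, ψ (t : ZMod N) * (if n * (t : ZMod N) = 1 then (N : ℂ) else 0) =
      N * ψ⁻¹ n := by
  by_cases hn : IsUnit n
  · obtain ⟨u, rfl⟩ := hn
    rw [Finset.sum_eq_single u⁻¹]
    · rw [if_pos (by simp), MulChar.inv_apply_eq_inv', mul_comm]
      congr 1
      rw [← MulChar.inv_apply_eq_inv']
      rw [MulChar.inv_apply]
      congr 1
      simp
    · intro t _ ht
      rw [if_neg, mul_zero]
      intro h1
      apply ht
      have h2 : u * t = 1 := Units.ext (by simpa using h1)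
      exact eq_inv_of_mul_eq_one_right h2
    · intro h1
      exact absurd (Finset.mem_univ _) h1
  · rw [MulChar.map_nonunit _ hn, mul_zero]
    refine Finset.sum_eq_zero fun t _ => ?_
    rw [if_neg, mul_zero]
    intro h1
    exact hn (IsUnit.of_mul_eq_one _ h1)

/-- the Fourier series at `b / N` -/
lemma hasSum_val {N : ℕ} [NeZero N] {m : ℕ} (hm : 2 ≤ m) (b : ZMod N) :
    HasSum (fun n : ℕ => (1 : ℂ) / (n : ℂ) ^ m * (ZMod.stdAddChar (N := N) ((n : ZMod N) * b) +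
      (-1 : ℂ) ^ m * ZMod.stdAddChar (N := N) (-(n : ZMod N) * b)))
      (-(2 * π * I) ^ m / m.factorial * ((bernoulliFun m ((b.val : ℝ) / N) : ℝ) : ℂ)) := by
  have hN : (0 : ℝ) < N := Nat.cast_pos.2 (NeZero.pos N)
  have hx : ((b.val : ℝ) / N) ∈ Set.Icc (0 : ℝ) 1 :=
    ⟨by positivity, (div_le_one hN).2 (by exact_mod_cast (ZMod.val_lt b).le)⟩
  have h1 := hasSum_one_div_nat_pow_mul_fourier hm hx
  have h2 : ∀ n : ℤ, (fourier n (((b.val : ℝ) / N : ℝ) : UnitAddCircle) : ℂ) =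
      ZMod.stdAddChar (N := N) ((n : ZMod N) * b) := by
    intro n
    have h3 : ((n : ZMod N) * b) = (((n * (b.val : ℤ) : ℤ)) : ZMod N) := by
      push_cast
      rw [ZMod.natCast_zmod_val]
    rw [h3, ZMod.stdAddChar_coe, fourier_coe_apply]
    congr 1
    push_cast
    have hN' : (N : ℂ) ≠ 0 := by exact_mod_cast hN.ne'
    field_simp
  simp only [h2, Int.cast_neg, Int.cast_natCast] at h1
  exact h1

theorem main : S_NVM := by
  intro N m _ hm ψ hψ hpar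
  rcases Nat.lt_or_ge m 2 with h1 | h1
  · obtain rfl : m = 1 := by omega
    exact main_one N ψ hψ (by simpa using hpar)
  by_contra hcon
  push Not at hcon
  have hN : (N : ℂ) ≠ 0 := Nat.cast_ne_zero.2 (NeZero.ne N)
  have hf : ((m.factorial : ℕ) : ℂ) ≠ 0 := Nat.cast_ne_zero.2 m.factorial_ne_zero
  -- all sums of Bernoulli values vanish
  have hB : ∀ a : ZMod N, ∑ t : (ZMod N)ˣ, ψ (t : ZMod N) *
      ((bernoulliFun m (((((t : ZMod N) * a).val : ℕ) : ℝ) / N) : ℝ) : ℂ) = 0 := by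
    intro a
    have h2 := hcon a
    have h3 : ∀ t : (ZMod N)ˣ, ψ (t : ZMod N) *
        (pol ℂ m).eval (((((t : ZMod N) * a).val : ℕ) : ℂ) / (N : ℂ)) =
        (m.factorial : ℂ) * (ψ (t : ZMod N) *
          ((bernoulliFun m (((((t : ZMod N) * a).val : ℕ) : ℝ) / N) : ℝ) : ℂ)) -
        ((m.factorial : ℕ) : ℂ) * ((_root_.bernoulli m : ℚ) : ℂ) * ψ (t : ZMod N) := by
      intro t
      rw [pol_val]
      ring
    rw [Finset.sum_congr rfl fun t _ => h3 t, Finset.sum_sub_distrib, ← mul_sum, ← mul_sum,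
      sum_units hψ, mul_zero, sub_zero] at h2
    exact (mul_eq_zero.1 h2).resolve_left hf
  -- the Fourier coefficient at 1
  have hS : HasSum (fun n : ℕ => ∑ a : ZMod N, ZMod.stdAddChar (N := N) (-a) *
      ∑ t : (ZMod N)ˣ, ψ (t : ZMod N) * ((1 : ℂ) / (n : ℂ) ^ m *
        (ZMod.stdAddChar (N := N) ((n : ZMod N) * ((t : ZMod N) * a)) +
      (-1 : ℂ) ^ m * ZMod.stdAddChar (N := N) (-(n : ZMod N) * ((t : ZMod N) * a)))))
      (∑ a : ZMod N, ZMod.stdAddChar (N := N) (-a) *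
      ∑ t : (ZMod N)ˣ, ψ (t : ZMod N) * (-(2 * π * I) ^ m / m.factorial *
        ((bernoulliFun m (((((t : ZMod N) * a).val : ℕ) : ℝ) / N) : ℝ) : ℂ))) := by
    refine hasSum_sum fun a _ => (hasSum_sum fun t _ => ?_).mul_left _
    exact (hasSum_val h1 _).mul_left _
  have hz : (∑ a : ZMod N, ZMod.stdAddChar (N := N) (-a) *
      ∑ t : (ZMod N)ˣ, ψ (t : ZMod N) * (-(2 * π * I) ^ m / m.factorial *
        ((bernoulliFun m (((((t : ZMod N) * a).val : ℕ) : ℝ) / N) : ℝ) : ℂ))) = 0 := by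
    refine Finset.sum_eq_zero fun a _ => ?_
    have h2 : ∀ t : (ZMod N)ˣ, ψ (t : ZMod N) * (-(2 * π * I) ^ m / m.factorial *
        ((bernoulliFun m (((((t : ZMod N) * a).val : ℕ) : ℝ) / N) : ℝ) : ℂ)) =
        -(2 * π * I) ^ m / m.factorial * (ψ (t : ZMod N) *
        ((bernoulliFun m (((((t : ZMod N) * a).val : ℕ) : ℝ) / N) : ℝ) : ℂ)) := fun t => by ring
    rw [Finset.sum_congr rfl fun t _ => h2 t, ← mul_sum, hB a, mul_zero, mul_zero]
  rw [hz] at hS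
  have hterm : ∀ n : ℕ, (∑ a : ZMod N, ZMod.stdAddChar (N := N) (-a) *
      ∑ t : (ZMod N)ˣ, ψ (t : ZMod N) * ((1 : ℂ) / (n : ℂ) ^ m *
        (ZMod.stdAddChar (N := N) ((n : ZMod N) * ((t : ZMod N) * a)) +
      (-1 : ℂ) ^ m * ZMod.stdAddChar (N := N) (-(n : ZMod N) * ((t : ZMod N) * a))))) =
      2 * N * LSeries.term (fun n => ψ⁻¹ (n : ZMod N)) (m : ℂ) n := by
    intro n
    rcases eq_or_ne n 0 with rfl | hn
    · rw [LSeries.term_zero, mul_zero]
      refine Finset.sum_eq_zero fun a _ => ?_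
      rw [Finset.sum_eq_zero, mul_zero]
      intro t _
      rw [Nat.cast_zero, zero_pow (by omega), div_zero, zero_mul, mul_zero]
    rw [LSeries.term_of_ne_zero hn, Complex.cpow_natCast]
    have e1 : ∀ a : ZMod N, ZMod.stdAddChar (N := N) (-a) *
        ∑ t : (ZMod N)ˣ, ψ (t : ZMod N) * ((1 : ℂ) / (n : ℂ) ^ m *
          (ZMod.stdAddChar (N := N) ((n : ZMod N) * ((t : ZMod N) * a)) +
        (-1 : ℂ) ^ m * ZMod.stdAddChar (N := N) (-(n : ZMod N) * ((t : ZMod N) * a)))) =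
        ∑ t : (ZMod N)ˣ, (ψ (t : ZMod N) * ((1 : ℂ) / (n : ℂ) ^ m)) *
          ((ZMod.stdAddChar (N := N) (-a) * ZMod.stdAddChar (N := N) (((n : ZMod N) * (t : ZMod N)) * a)) +
        (-1 : ℂ) ^ m * (ZMod.stdAddChar (N := N) (-a) *
          ZMod.stdAddChar (N := N) ((-(n : ZMod N) * (t : ZMod N)) * a))) := by
      intro a
      rw [mul_sum]
      refine Finset.sum_congr rfl fun t _ => ?_
      rw [← mul_assoc (n : ZMod N), ← mul_assoc (-(n : ZMod N))]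
      ring
    rw [Finset.sum_congr rfl fun a _ => e1 a, Finset.sum_comm]
    have e2 : ∀ t : (ZMod N)ˣ, ∑ a : ZMod N, (ψ (t : ZMod N) * ((1 : ℂ) / (n : ℂ) ^ m)) *
          ((ZMod.stdAddChar (N := N) (-a) * ZMod.stdAddChar (N := N) (((n : ZMod N) * (t : ZMod N)) * a)) +
        (-1 : ℂ) ^ m * (ZMod.stdAddChar (N := N) (-a) *
          ZMod.stdAddChar (N := N) ((-(n : ZMod N) * (t : ZMod N)) * a))) =
        ((1 : ℂ) / (n : ℂ) ^ m) * (ψ (t : ZMod N) * (if (n : ZMod N) * (t : ZMod N) = 1 then (N : ℂ) else 0)) +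
        ((1 : ℂ) / (n : ℂ) ^ m) * (-1 : ℂ) ^ m *
          (ψ (t : ZMod N) * (if -(n : ZMod N) * (t : ZMod N) = 1 then (N : ℂ) else 0)) := by
      intro t
      rw [← mul_sum, Finset.sum_add_distrib, ← mul_sum, orth, orth]
      ring
    rw [Finset.sum_congr rfl fun t _ => e2 t, Finset.sum_add_distrib, ← mul_sum, ← mul_sum, inv_sum,
      inv_sum]
    have e3 : ψ⁻¹ (-(n : ZMod N)) = (-1) ^ m * ψ⁻¹ (n : ZMod N) := by
      rw [neg_eq_neg_one_mul, map_mul]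
      congr 1
      rw [MulChar.inv_apply_eq_inv', hpar]
      rcases Nat.even_or_odd m with h | h
      · rw [h.neg_one_pow, inv_one]
      · rw [h.neg_one_pow]; norm_num
    rw [e3]
    have e4 : ((-1 : ℂ) ^ m) * ((-1 : ℂ) ^ m) = 1 := by
      rw [← mul_pow]; norm_num
    have e5 : (1 / (n : ℂ) ^ m) * (-1) ^ m * (N * ((-1) ^ m * ψ⁻¹ (n : ZMod N))) =
        (1 / (n : ℂ) ^ m) * N * ψ⁻¹ (n : ZMod N) * (((-1 : ℂ) ^ m) * ((-1 : ℂ) ^ m)) := by ring
    rw [e5, e4]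
    ring
  rw [funext hterm] at hS
  have h2 : LSeries (fun n => ψ⁻¹ (n : ZMod N)) (m : ℂ) = 0 := by
    have h3 := hS.tsum_eq
    rw [tsum_mul_left] at h3
    rw [LSeries]
    exact (mul_eq_zero.1 h3).resolve_left (mul_ne_zero two_ne_zero hN)
  refine DirichletCharacter.LSeries_ne_zero_of_one_lt_re ψ⁻¹ (s := (m : ℂ)) ?_ h2
  rw [Complex.natCast_re]
  exact_mod_cast h1

end Pool.Agent.Helper85.GQ.Nvm
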