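import Mathlib
import Pool.Agent.Helper85.GQ.Base

/-!
# The choice of the parameter `W`
-/

set_option autoImplicit false

namespace Pool.Agent.Helper85.GQ.Par

open Finset

lemma omega_le (N : ℕ) (hN : N ≠ 0) : (N.primeFactors.card : ℝ) * Real.log 2 ≤ Real.log N := by
  have h1 : 2 ^ N.primeFactors.card ≤ N := by
    have h2 : 2 ^ N.primeFactors.card ≤ ∏ p ∈ N.primeFactors, p :=
      Finset.pow_card_le_prod _ _ _ fun p hp => (Nat.prime_of_mem_primeFactors hp).two_le
    exact h2.trans (Nat.le_of_dvd (Nat.pos_of_ne_zero hN) (Nat.prod_primeFactors_dvd N))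
  have h3 : ((2 : ℝ) ^ N.primeFactors.card) ≤ N := by exact_mod_cast h1
  have h4 := Real.log_le_log (by positivity) h3
  rwa [Real.log_pow] at h4

lemma pi_half (W : ℕ) (hW : 20 ≤ W) :
    (W : ℝ) / 2 ≤ (((range (W + 1)).filter Nat.Prime).card : ℝ) * Real.log W := by
  have hW' : (20 : ℝ) ≤ W := by exact_mod_cast hW
  have hl : 0 < Real.log W := Real.log_pos (by linarith)
  have h1 := Chebyshev.pi_ge W
  rw [div_le_iff₀ hl] at h1
  have h2 : Nat.primeCounting W = ((range (W + 1)).filter Nat.Prime).card := by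
    rw [Nat.primeCounting, Nat.primeCounting', Nat.count_eq_card_filter_range]
  rw [h2] at h1
  have h3 : Real.log ((W : ℝ) + 1) ≤ 5 * Real.log 2 + (((W : ℝ) + 1) / 32 - 1) := by
    have h4 := Real.log_le_sub_one_of_pos (show (0 : ℝ) < ((W : ℝ) + 1) / 32 by positivity)
    rw [Real.log_div (by positivity) (by norm_num)] at h4
    have h5 : Real.log 32 = 5 * Real.log 2 := by
      rw [show (32 : ℝ) = 2 ^ 5 by norm_num, Real.log_pow]; norm_num
    linarith
  have hl2 := Real.log_two_gt_d9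
  have hl2' := Real.log_two_lt_d9
  nlinarith

lemma card_BB (N W : ℕ) (hN : N ≠ 0) : ((range (W + 1)).filter Nat.Prime).card ≤
    (BB N W).card + N.primeFactors.card := by
  refine (Finset.card_le_card (t := BB N W ∪ N.primeFactors) ?_).trans (Finset.card_union_le _ _)
  intro b hb
  rw [mem_filter] at hb
  rw [mem_union]
  by_cases h : b ∣ N
  · right
    exact Nat.mem_primeFactors.2 ⟨hb.2, h, hN⟩
  · left
    rw [BB, mem_filter]
    exact ⟨hb.1, hb.2, h⟩

/-- `(log N)² ≤ 64 √(√N)` -/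
lemma log_sq (s : ℝ) (hs : 1 ≤ s) : Real.log (s ^ 4) ^ 2 ≤ 64 * s := by
  have h1 := Real.log_le_sub_one_of_pos (show (0 : ℝ) < Real.sqrt s by positivity)
  have h2 : Real.log (Real.sqrt s) = Real.log s / 2 := Real.log_sqrt (by linarith)
  have h3 : Real.log (s ^ 4) = 8 * Real.log (Real.sqrt s) := by
    rw [h2, Real.log_pow]; push_cast; ring
  have h4 : 0 ≤ Real.log (Real.sqrt s) := Real.log_nonneg (by
    rw [Real.one_le_sqrt]; exact hs)
  have h5 := Real.sq_sqrt (show 0 ≤ s by linarith)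
  have h6 := Real.sqrt_nonneg s
  rw [h3]
  nlinarith

/-- the numerical condition on `W` -/
lemma cond (m : ℕ) (hm : 1 ≤ m) (N p : ℝ) (hN : 2 ≤ N) (T W : ℝ) (hT : 0 ≤ T) (hW : 0 ≤ W)
    (hTm : T ^ (2 * m) * Real.log N = N * p ^ 2)
    (hNT : 12 * 4 ^ m * (m : ℝ) ^ (2 * m) * N ≤ T ^ 2)
    (hWT : 12 * 4 ^ m * (m : ℝ) ^ (2 * m) * W ≤ T) :
    ((m : ℝ) * W ^ 2 + N) * (4 ^ m * ((m : ℝ) * W) ^ (2 * (m - 1))) * (2 * Real.log (4 * N)) ≤
      N * p ^ 2 := by
  set A : ℝ := 12 * 4 ^ m * (m : ℝ) ^ (2 * m) with hA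
  have hm1 : (1 : ℝ) ≤ m := by exact_mod_cast hm
  have h4m : (1 : ℝ) ≤ 4 ^ m := one_le_pow₀ (by norm_num)
  have hm2 : (1 : ℝ) ≤ (m : ℝ) ^ (2 * m) := one_le_pow₀ hm1
  have hmm : (m : ℝ) ≤ (m : ℝ) ^ (2 * m) := le_self_pow₀ hm1 (by omega)
  have hAm : 12 * (m : ℝ) ≤ A := by
    rw [hA]
    have : (1 : ℝ) * (m : ℝ) ≤ 4 ^ m * (m : ℝ) ^ (2 * m) := mul_le_mul h4m hmm (by positivity)
      (by positivity)
    nlinarith
  have hA0 : 0 < A := by linarith
  have hA1 : 1 ≤ A := by linarith
  have hlN : 0 < Real.log N := Real.log_pos (by linarith)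
  have hl4 : Real.log (4 * N) ≤ 3 * Real.log N := by
    have h1 : Real.log (4 * N) ≤ Real.log (N ^ 3) := by
      apply Real.log_le_log (by positivity)
      nlinarith [mul_nonneg (show (0 : ℝ) ≤ N by linarith) (show 0 ≤ N ^ 2 - 4 by nlinarith)]
    rw [Real.log_pow] at h1
    exact_mod_cast h1
  have hWT' : W ≤ T := by nlinarith
  have hWW : A * ((m : ℝ) * W ^ 2) ≤ T ^ 2 := by
    have h1 : (A * W) ^ 2 ≤ T ^ 2 := pow_le_pow_left₀ (by positivity) hWT 2
    have h2 : A * (m * W ^ 2) ≤ (A * W) ^ 2 := by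
      have : A * (m * W ^ 2) = (A * m) * W ^ 2 := by ring
      rw [this, mul_pow]
      apply mul_le_mul_of_nonneg_right _ (by positivity)
      nlinarith
    linarith
  have hs1 : A * ((m : ℝ) * W ^ 2 + N) ≤ 2 * T ^ 2 := by linarith
  have hs2 : ((m : ℝ) * W) ^ (2 * (m - 1)) ≤ (m : ℝ) ^ (2 * m) * T ^ (2 * (m - 1)) := by
    rw [mul_pow]
    apply mul_le_mul
    · exact pow_le_pow_right₀ hm1 (by omega)
    · exact pow_le_pow_left₀ hW hWT' _
    · positivity
    · positivity
  have hTT : T ^ 2 * T ^ (2 * (m - 1)) = T ^ (2 * m) := by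
    rw [← pow_add]
    congr 1
    omega
  have hmain : A * (((m : ℝ) * W ^ 2 + N) * (4 ^ m * ((m : ℝ) * W) ^ (2 * (m - 1)))) ≤
      2 * (4 ^ m * (m : ℝ) ^ (2 * m)) * T ^ (2 * m) := by
    calc A * (((m : ℝ) * W ^ 2 + N) * (4 ^ m * ((m : ℝ) * W) ^ (2 * (m - 1))))
        = (A * ((m : ℝ) * W ^ 2 + N)) * (4 ^ m * ((m : ℝ) * W) ^ (2 * (m - 1))) := by ring
      _ ≤ (2 * T ^ 2) * (4 ^ m * ((m : ℝ) ^ (2 * m) * T ^ (2 * (m - 1)))) := by
          apply mul_le_mul hs1 _ (by positivity) (by positivity)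
          exact mul_le_mul_of_nonneg_left hs2 (by positivity)
      _ = 2 * (4 ^ m * (m : ℝ) ^ (2 * m)) * (T ^ 2 * T ^ (2 * (m - 1))) := by ring
      _ = _ := by rw [hTT]
  have hmain2 : 6 * (((m : ℝ) * W ^ 2 + N) * (4 ^ m * ((m : ℝ) * W) ^ (2 * (m - 1)))) ≤
      T ^ (2 * m) := by
    have e : 2 * (4 ^ m * (m : ℝ) ^ (2 * m)) = A / 6 := by rw [hA]; ring
    rw [e] at hmain
    have h1 : A * (6 * (((m : ℝ) * W ^ 2 + N) * (4 ^ m * ((m : ℝ) * W) ^ (2 * (m - 1))))) ≤
        A * T ^ (2 * m) := by linarith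
    exact le_of_mul_le_mul_left h1 hA0
  calc ((m : ℝ) * W ^ 2 + N) * (4 ^ m * ((m : ℝ) * W) ^ (2 * (m - 1))) * (2 * Real.log (4 * N))
      ≤ ((m : ℝ) * W ^ 2 + N) * (4 ^ m * ((m : ℝ) * W) ^ (2 * (m - 1))) *
        (2 * (3 * Real.log N)) := by
        apply mul_le_mul_of_nonneg_left (by linarith) (by positivity)
    _ = 6 * (((m : ℝ) * W ^ 2 + N) * (4 ^ m * ((m : ℝ) * W) ^ (2 * (m - 1)))) * Real.log N := by
        ring
    _ ≤ T ^ (2 * m) * Real.log N := mul_le_mul_of_nonneg_right hmain2 hlN.le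
    _ = N * p ^ 2 := hTm

theorem main : S_PAR := by
  intro m hm
  set A : ℝ := 12 * 4 ^ m * (m : ℝ) ^ (2 * m) with hA
  have hm1 : (1 : ℝ) ≤ m := by exact_mod_cast hm
  have h4m : (1 : ℝ) ≤ 4 ^ m := one_le_pow₀ (by norm_num)
  have hm2 : (1 : ℝ) ≤ (m : ℝ) ^ (2 * m) := one_le_pow₀ hm1
  have hmm : (m : ℝ) ≤ (m : ℝ) ^ (2 * m) := le_self_pow₀ hm1 (by omega)
  have hAm : 12 * (m : ℝ) ≤ A := by
    rw [hA]
    have : (1 : ℝ) * (m : ℝ) ≤ 4 ^ m * (m : ℝ) ^ (2 * m) := mul_le_mul h4m hmm (by positivity)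
      (by positivity)
    nlinarith
  have hA0 : 0 < A := by linarith
  have hA1 : 12 ≤ A := by linarith
  set B : ℝ := (1024 * A) ^ 4 with hB
  have hB0 : 0 < B := by positivity
  refine ⟨1 / (4 * B), A ^ m, by positivity, ?_⟩
  intro p N hp hN hmp hC u hu
  have hN2 : (2 : ℝ) ≤ N := by exact_mod_cast hN
  have hp2 : (2 : ℝ) ≤ p := by exact_mod_cast hp.two_le
  have hl2 := Real.log_two_gt_d9
  have hlN : Real.log 2 ≤ Real.log N := Real.log_le_log (by norm_num) hN2
  have hlp : Real.log 2 ≤ Real.log p := Real.log_le_log (by norm_num) hp2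
  have hlN0 : 0 < Real.log N := by linarith
  have hlp0 : 0 < Real.log p := by linarith
  have hN0 : N ≠ 0 := by omega
  have hd : (1 : ℝ) ≤ (N.divisors.card : ℝ) := by
    exact_mod_cast Finset.card_pos.2 ⟨1, Nat.one_mem_divisors.2 hN0⟩
  set T : ℝ := ((p : ℝ) ^ 2 * N / Real.log N) ^ (1 / (2 * (m : ℝ))) with hT
  have hX0 : 0 ≤ (p : ℝ) ^ 2 * N / Real.log N := by positivity
  have hT0 : 0 ≤ T := Real.rpow_nonneg hX0 _
  have hu0 : (1 : ℝ) ≤ (u : ℝ) + 1 := by linarith [Nat.cast_nonneg (α := ℝ) u]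
  rw [div_le_iff₀ (by positivity)]
  have hden : (1 : ℝ) / 4 ≤ ((N.divisors.card : ℝ) * Real.log N * Real.log p) := by
    have h1 : (1 / 2 : ℝ) * (1 / 2) ≤ Real.log N * Real.log p :=
      mul_le_mul (by linarith) (by linarith) (by norm_num) hlN0.le
    have h2 : Real.log N * Real.log p ≤ (N.divisors.card : ℝ) * (Real.log N * Real.log p) :=
      le_mul_of_one_le_left (by positivity) hd
    rw [mul_assoc]
    linarith
  by_cases hNB : (N : ℝ) ≤ B
  · have h1 : 1 / (4 * B) * min (N : ℝ) T ≤ 1 / (4 * B) * B :=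
      mul_le_mul_of_nonneg_left ((min_le_left _ _).trans hNB) (by positivity)
    have h2 : 1 / (4 * B) * B = 1 / 4 := by field_simp
    have h3 : ((N.divisors.card : ℝ) * Real.log N * Real.log p) ≤
        ((u : ℝ) + 1) * ((N.divisors.card : ℝ) * Real.log N * Real.log p) :=
      le_mul_of_one_le_left (by positivity) hu0
    linarith
  · push Not at hNB
    -- the powers of `T`
    have hTm : T ^ (2 * m) = (p : ℝ) ^ 2 * N / Real.log N := by
      rw [hT, ← Real.rpow_natCast, ← Real.rpow_mul hX0]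
      have : (1 / (2 * (m : ℝ))) * ((2 * m : ℕ) : ℝ) = 1 := by
        push_cast
        field_simp
      rw [this, Real.rpow_one]
    have hTm' : T ^ (2 * m) * Real.log N = N * (p : ℝ) ^ 2 := by
      rw [hTm]
      field_simp
    have hNT : A * N ≤ T ^ 2 := by
      have h1 : (A * N) ^ m ≤ (T ^ 2) ^ m := by
        rw [← pow_mul, hTm, le_div_iff₀ hlN0, mul_pow]
        have e : (N : ℝ) ^ m = (N : ℝ) ^ (m - 1) * N := by
          rw [← pow_succ]
          congr 1
          omega
        rw [e]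
        have h2 := mul_le_mul_of_nonneg_right hC (show (0 : ℝ) ≤ N by positivity)
        linarith
      exact le_of_pow_le_pow_left₀ (by omega) (by positivity) h1
    -- the fourth root of `N`
    obtain ⟨s, hs1, hs4⟩ : ∃ s : ℝ, 1024 * A ≤ s ∧ s ^ 4 = N := by
      refine ⟨(N : ℝ) ^ ((1 : ℝ) / 4), ?_, ?_⟩
      · have h1 : (1024 * A : ℝ) = (B) ^ ((1 : ℝ) / 4) := by
          rw [hB, ← Real.rpow_natCast, ← Real.rpow_mul (by positivity)]
          norm_num
        rw [h1]
        exact Real.rpow_le_rpow hB0.le hNB.le (by norm_num)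
      · rw [← Real.rpow_natCast, ← Real.rpow_mul (by positivity)]
        norm_num
    have hs0 : 0 < s := by linarith
    have hTs : A * s ^ 2 ≤ A * T := by
      apply mul_le_mul_of_nonneg_left _ hA0.le
      apply le_of_pow_le_pow_left₀ (n := 2) (by norm_num) hT0
      have : (s ^ 2) ^ 2 = N := by rw [← hs4]; ring
      rw [this]
      nlinarith
    have hTs' : s ^ 2 ≤ T := le_of_mul_le_mul_left hTs hA0
    set M : ℝ := min (N : ℝ) T / A with hM
    have hMs : s ^ 2 / A ≤ M := by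
      rw [hM]
      apply div_le_div_of_nonneg_right _ hA0.le
      apply le_min _ hTs'
      rw [← hs4]
      nlinarith [sq_nonneg (s ^ 2), sq_nonneg s]
    have hsA : 1024 * s ≤ s ^ 2 / A := by
      rw [le_div_iff₀ hA0]
      nlinarith
    set W : ℕ := ⌊M⌋₊ with hW
    have hM0 : 0 ≤ M := by linarith
    have hWM : (W : ℝ) ≤ M := Nat.floor_le hM0
    have hWM' : M < W + 1 := Nat.lt_floor_add_one M
    have hMb : 1024 * (1024 * A) ≤ M := by nlinarith
    have hWM2 : M / 2 ≤ W := by linarith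
    have hmA : ((m : ℝ) + 1) ≤ A := by linarith
    have hW20 : 20 ≤ W := by
      have : (20 : ℝ) ≤ W := by linarith
      exact_mod_cast this
    have hAM : A * M = min (N : ℝ) T := by rw [hM]; field_simp
    have hWN : (m + 1) * W < N := by
      have h1 : ((m : ℝ) + 1) * W < N := by
        have h2 : ((m : ℝ) + 1) * W ≤ (m + 1) * M := mul_le_mul_of_nonneg_left hWM (by positivity)
        have h3 : ((m : ℝ) + 1) * M < A * M := by
          apply mul_lt_mul_of_pos_right _ (by linarith)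
          linarith
        have h4 : A * M ≤ N := by rw [hAM]; exact min_le_left _ _
        linarith
      exact_mod_cast h1
    have hN13 : 13 ≤ N := by
      have h1 : W ≤ (m + 1) * W := Nat.le_mul_of_pos_left _ (by omega)
      omega
    have hAW : A * W ≤ T := by
      have h1 : A * (W : ℝ) ≤ A * M := mul_le_mul_of_nonneg_left hWM hA0.le
      rw [hAM] at h1
      exact h1.trans (min_le_right _ _)
    have hcond := cond m hm (N : ℝ) (p : ℝ) hN2 T W hT0 (Nat.cast_nonneg _) hTm'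
      (by rw [← hA]; exact hNT) (by rw [← hA]; exact hAW)
    have key := hu W hN13 hWN hcond
    -- the number of primes
    have hpi := pi_half W hW20
    have hBB : (((range (W + 1)).filter Nat.Prime).card : ℝ) ≤
        ((BB N W).card : ℝ) + N.primeFactors.card := by exact_mod_cast card_BB N W hN0
    have hom := omega_le N hN0
    have hWN' : (W : ℝ) ≤ N := by
      have h1 : W ≤ (m + 1) * W := Nat.le_mul_of_pos_left _ (by omega)
      have h2 : W ≤ N := by omega
      exact_mod_cast h2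
    have hW20' : (20 : ℝ) ≤ W := by exact_mod_cast hW20
    have hlW : Real.log W ≤ Real.log N := Real.log_le_log (by linarith) hWN'
    have hsq : Real.log N ^ 2 ≤ 64 * s := by
      have := log_sq s (by linarith)
      rwa [hs4] at this
    have hpi2 : (W : ℝ) / 2 ≤ (((BB N W).card : ℝ) + N.primeFactors.card) * Real.log N := by
      refine hpi.trans (mul_le_mul hBB hlW (Real.log_nonneg (by linarith)) (by positivity))
    have hom2 : (N.primeFactors.card : ℝ) * Real.log N ≤ 128 * s := by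
      have h1 : (N.primeFactors.card : ℝ) ≤ 2 * Real.log N := by
        have h2 : (N.primeFactors.card : ℝ) * (1 / 2) ≤ N.primeFactors.card * Real.log 2 :=
          mul_le_mul_of_nonneg_left (by linarith) (Nat.cast_nonneg _)
        linarith
      have h3 : (N.primeFactors.card : ℝ) * Real.log N ≤ 2 * Real.log N * Real.log N :=
        mul_le_mul_of_nonneg_right h1 hlN0.le
      nlinarith
    have hBBl : M / 8 ≤ ((BB N W).card : ℝ) * Real.log N := by
      have h1 : 128 * s ≤ M / 8 := by linarith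
      linarith
    -- the final step
    have hlog : ((BB N W).card : ℝ) * Real.log 2 ≤
        Real.log 2 + ((u : ℝ) + 1) * N.divisors.card * Real.log p := by
      have h1 : ((2 : ℝ) ^ (BB N W).card) ≤ 2 * (p : ℝ) ^ ((u + 1) * N.divisors.card) := by
        exact_mod_cast key
      have h2 := Real.log_le_log (by positivity) h1
      rw [Real.log_pow, Real.log_mul (by norm_num) (by positivity), Real.log_pow] at h2
      push_cast at h2
      exact h2
    have hlog2 : Real.log 2 ≤ ((u : ℝ) + 1) * N.divisors.card * Real.log p := by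
      have h1 : (1 : ℝ) ≤ ((u : ℝ) + 1) * N.divisors.card := by nlinarith
      nlinarith
    have hlog3 : ((BB N W).card : ℝ) / 4 ≤ ((u : ℝ) + 1) * N.divisors.card * Real.log p := by
      have h1 : ((BB N W).card : ℝ) * (1 / 2) ≤ ((BB N W).card : ℝ) * Real.log 2 :=
        mul_le_mul_of_nonneg_left (by linarith) (Nat.cast_nonneg _)
      linarith
    have hfin : M / 32 ≤ ((u : ℝ) + 1) * ((N.divisors.card : ℝ) * Real.log N * Real.log p) := by
      have h1 : ((BB N W).card : ℝ) / 4 * Real.log N ≤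
          ((u : ℝ) + 1) * N.divisors.card * Real.log p * Real.log N :=
        mul_le_mul_of_nonneg_right hlog3 hlN0.le
      have h2 : ((u : ℝ) + 1) * N.divisors.card * Real.log p * Real.log N =
          ((u : ℝ) + 1) * ((N.divisors.card : ℝ) * Real.log N * Real.log p) := by ring
      rw [h2] at h1
      linarith
    refine le_trans ?_ hfin
    rw [← hAM]
    have h1 : A / (4 * B) ≤ 1 / 32 := by
      rw [div_le_div_iff₀ (by positivity) (by norm_num)]
      have h2 : 1024 * A ≤ B := by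
        rw [hB]
        exact le_self_pow₀ (by linarith) (by norm_num)
      linarith
    calc 1 / (4 * B) * (A * M) = A / (4 * B) * M := by ring
      _ ≤ 1 / 32 * M := mul_le_mul_of_nonneg_right h1 hM0
      _ = M / 32 := by ring

end Pool.Agent.Helper85.GQ.Par
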