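import Mathlib
import Pool.Agent.Helper85.GQ.Base

/-!
# The pigeonhole principle
-/

set_option autoImplicit false

namespace Pool.Agent.Helper85.GQ.Pig

open Finset Polynomial

/-- the sum of the squares of the differences -/
lemma sum_sq (hSpc : S_SPC) (hLoc : S_LOC) {N m W x : ℕ} (hN : 0 < N) (hm : 1 ≤ m)
    (hmW : m * W < N) (hx : x + m < N) :
    ∑ b ∈ BB N W, ((hh N m b x : ℤ) : ℝ) ^ 2 ≤
      ((m : ℝ) * W ^ 2 + N) / N * (4 ^ m * ((m : ℝ) * W) ^ (2 * (m - 1))) := by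
  classical
  have hNr : (0 : ℝ) < N := by exact_mod_cast hN
  set S := (range (W + 1)).filter fun b => b.Prime ∧ b * x / N ≠ b * (x + m) / N with hS
  have hcard := hSpc N m W x hN hm hx
  rw [← hS] at hcard
  have h1 : ∑ b ∈ BB N W, ((hh N m b x : ℤ) : ℝ) ^ 2 ≤ ∑ b ∈ S, (4 ^ m * ((m : ℝ) * W) ^ (2 * (m - 1))) := by
    have e1 : ∑ b ∈ BB N W, ((hh N m b x : ℤ) : ℝ) ^ 2 =
        ∑ b ∈ (BB N W).filter (fun b => b ∈ S), ((hh N m b x : ℤ) : ℝ) ^ 2 := by
      rw [Finset.sum_filter]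
      refine Finset.sum_congr rfl fun b hb => ?_
      split_ifs with h
      · rfl
      · have hb' : b < W + 1 ∧ b.Prime ∧ ¬ b ∣ N := by simpa [BB] using hb
        have hbx : b * x / N = b * (x + m) / N := by
          by_contra hne
          exact h (by simp [hS, hb'.1, hb'.2.1, hne])
        have hmb : m * b < N := lt_of_le_of_lt (Nat.mul_le_mul_left m (by omega)) hmW
        rw [(hLoc N m b x hN hm hmb).1 hbx]
        simp
    rw [e1]
    have hsub : (BB N W).filter (fun b => b ∈ S) ⊆ S := fun b hb => (mem_filter.1 hb).2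
    refine (Finset.sum_le_sum_of_subset_of_nonneg hsub (fun _ _ _ => sq_nonneg _)).trans ?_
    refine Finset.sum_le_sum fun b hb => ?_
    have hb' : b < W + 1 := by
      have := (mem_filter.1 hb).1
      exact mem_range.1 this
    have hmb : m * b < N := lt_of_le_of_lt (Nat.mul_le_mul_left m (by omega)) hmW
    have h2 := (hLoc N m b x hN hm hmb).2
    have h3 : |((hh N m b x : ℤ) : ℝ)| ≤ 2 ^ m * ((m : ℝ) * b) ^ (m - 1) := by
      have : ((|hh N m b x| : ℤ) : ℝ) ≤ ((2 ^ m * ((m * b : ℕ) : ℤ) ^ (m - 1) : ℤ) : ℝ) := by exact_mod_cast h2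
      rw [Int.cast_abs] at this
      push_cast at this
      exact this
    have h4 : (2 : ℝ) ^ m * ((m : ℝ) * b) ^ (m - 1) ≤ 2 ^ m * ((m : ℝ) * W) ^ (m - 1) := by
      have : (b : ℝ) ≤ W := by exact_mod_cast (by omega : b ≤ W)
      gcongr
    calc ((hh N m b x : ℤ) : ℝ) ^ 2 = |((hh N m b x : ℤ) : ℝ)| ^ 2 := (sq_abs _).symm
      _ ≤ (2 ^ m * ((m : ℝ) * W) ^ (m - 1)) ^ 2 := by
          apply pow_le_pow_left₀ (abs_nonneg _) (h3.trans h4)
      _ = 4 ^ m * ((m : ℝ) * W) ^ (2 * (m - 1)) := by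
          rw [mul_pow, ← pow_mul, ← pow_mul, mul_comm m 2, pow_mul, mul_comm (m - 1) 2]
          norm_num
  rw [Finset.sum_const, nsmul_eq_mul] at h1
  refine h1.trans ?_
  have h5 : (S.card : ℝ) ≤ ((m : ℝ) * W ^ 2 + N) / N := by
    rw [le_div_iff₀ hNr]
    exact_mod_cast hcard
  exact mul_le_mul_of_nonneg_right h5 (by positivity)

theorem main (hHoe : S_HOE) (hSpc : S_SPC) (hLoc : S_LOC) (hDif : S_DIF) (hRec : S_REC) (hCls : S_CLS)
    (hPol : S_POL) (hFou : S_FOU) : S_PIG := by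
  classical
  intro p N m W hp hpN hN hm hmp hW hsize B hB
  have := Fact.mk hp
  by_contra hcon
  have hcon' : 2 * p ^ (((GP.unitSet B N m).ncard + 1) * N.divisors.card) < 2 ^ (BB N W).card := not_le.1 hcon
  set K := ((GP.unitSet B N m).ncard + 1) * N.divisors.card with hK
  have hpN1 : ¬ p ∣ N := fun h => hpN (h.mul_right _)
  have hN0 : 0 < N := by omega
  have hNr : (0 : ℝ) < N := by exact_mod_cast hN0
  have hmem : ∀ b ∈ BB N W, b.Prime ∧ ¬ b ∣ N ∧ b ≤ W := by
    intro b hb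
    have : b < W + 1 ∧ b.Prime ∧ ¬ b ∣ N := by simpa [BB] using hb
    exact ⟨this.2.1, this.2.2, by omega⟩
  have hco : ∀ b ∈ BB N W, b.Coprime N := fun b hb =>
    ((hmem b hb).1.coprime_iff_not_dvd).2 (hmem b hb).2.1
  have hmW : m * W < N := lt_of_le_of_lt (Nat.mul_le_mul_right W (by omega)) hW
  have hmb1 : ∀ b ∈ BB N W, (m + 1) * b < N := fun b hb =>
    lt_of_le_of_lt (Nat.mul_le_mul_left _ (hmem b hb).2.2) hW
  have hmb : ∀ b ∈ BB N W, m * b < N := fun b hb =>
    lt_of_le_of_lt (Nat.mul_le_mul_left _ (hmem b hb).2.2) hmW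
  have hne : (BB N W).Nonempty := by
    by_contra h
    rw [Finset.not_nonempty_iff_eq_empty] at h
    rw [h] at hcon'
    have : 0 < p ^ K := Nat.pow_pos hp.pos
    simp at hcon'
    omega
  obtain ⟨b₀, hb₀⟩ := hne
  have hW2 : 2 ≤ W := (hmem b₀ hb₀).1.two_le.trans (hmem b₀ hb₀).2.2
  have hmN : m < N := by nlinarith
  -- the variance
  set v : ℝ := ((m : ℝ) * W ^ 2 + N) / N * (4 ^ m * ((m : ℝ) * W) ^ (2 * (m - 1))) with hv
  have hWr : (0 : ℝ) < W := by exact_mod_cast (by omega : 0 < W)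
  have hmr : (0 : ℝ) < m := by exact_mod_cast hm
  have hvpos : 0 < v := by positivity
  have hpr : (0 : ℝ) < p := by exact_mod_cast hp.pos
  have hexp : Real.exp (-2 * ((p : ℝ) / 2) ^ 2 / v) ≤ 1 / (4 * N) := by
    have h1 : Real.log (4 * N) ≤ 2 * ((p : ℝ) / 2) ^ 2 / v := by
      rw [le_div_iff₀ hvpos]
      have e1 : Real.log (4 * N) * v * N = (((m : ℝ) * W ^ 2 + N) * (4 ^ m * ((m : ℝ) * W) ^ (2 * (m - 1))) *
          (2 * Real.log (4 * N))) / 2 := by
        rw [hv]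
        field_simp
      have h2 : Real.log (4 * N) * v * N ≤ 2 * ((p : ℝ) / 2) ^ 2 * N := by
        rw [e1]
        have : 2 * ((p : ℝ) / 2) ^ 2 * N = N * (p : ℝ) ^ 2 / 2 := by ring
        rw [this]
        linarith
      exact le_of_mul_le_mul_right h2 hNr
    have h3 : -2 * ((p : ℝ) / 2) ^ 2 / v = - (2 * ((p : ℝ) / 2) ^ 2 / v) := by ring
    rw [h3, Real.exp_neg]
    rw [one_div]
    apply inv_anti₀ (by positivity)
    calc (4 * N : ℝ) = Real.exp (Real.log (4 * N)) := (Real.exp_log (by positivity)).symm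
      _ ≤ _ := Real.exp_le_exp.2 h1
  -- bad sets
  let Bad : ℕ → Finset (Finset ℕ) := fun x => (BB N W).powerset.filter fun c =>
    (p : ℝ) / 2 ≤ |∑ b ∈ c, ((hh N m b x : ℤ) : ℝ) - (∑ b ∈ BB N W, ((hh N m b x : ℤ) : ℝ)) / 2|
  have hBad : ∀ x, x + m < N → ((Bad x).card : ℝ) ≤ 2 ^ (BB N W).card / (2 * N) := by
    intro x hx
    have h1 := hHoe (BB N W) (fun b => ((hh N m b x : ℤ) : ℝ)) v ((p : ℝ) / 2) hvpos (by positivity)
      (sum_sq hSpc hLoc hN0 hm hmW hx)
    refine h1.trans ?_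
    calc 2 * 2 ^ (BB N W).card * Real.exp (-2 * ((p : ℝ) / 2) ^ 2 / v) ≤
        2 * 2 ^ (BB N W).card * (1 / (4 * N)) := by
          apply mul_le_mul_of_nonneg_left hexp (by positivity)
      _ = 2 ^ (BB N W).card / (2 * N) := by field_simp; norm_num
  let U : Finset (Finset ℕ) := ((range N).filter fun x => x + m < N).biUnion Bad
  have hU : (U.card : ℝ) ≤ 2 ^ (BB N W).card / 2 := by
    calc (U.card : ℝ) ≤ ∑ x ∈ (range N).filter (fun x => x + m < N), ((Bad x).card : ℝ) := by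
          exact_mod_cast Finset.card_biUnion_le
      _ ≤ ∑ x ∈ (range N).filter (fun x => x + m < N), (2 ^ (BB N W).card / (2 * N) : ℝ) :=
          Finset.sum_le_sum fun x hx => hBad x (mem_filter.1 hx).2
      _ = (((range N).filter fun x => x + m < N).card : ℝ) * (2 ^ (BB N W).card / (2 * N)) := by
          rw [Finset.sum_const, nsmul_eq_mul]
      _ ≤ (N : ℝ) * (2 ^ (BB N W).card / (2 * N)) := by
          apply mul_le_mul_of_nonneg_right _ (by positivity)
          have := (Finset.card_filter_le (range N) (fun x => x + m < N))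
          rw [card_range] at this
          exact_mod_cast this
      _ = 2 ^ (BB N W).card / 2 := by field_simp
  let G : Finset (Finset ℕ) := (BB N W).powerset \ U
  have hG : (2 : ℝ) ^ (BB N W).card / 2 ≤ G.card := by
    have h1 : (BB N W).powerset.card ≤ G.card + U.card := by
      have := Finset.le_card_sdiff U (BB N W).powerset
      have h2 : G.card = ((BB N W).powerset \ U).card := rfl
      omega
    rw [card_powerset] at h1
    have h2 : (2 : ℝ) ^ (BB N W).card ≤ G.card + U.card := by exact_mod_cast h1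
    linarith
  have hGK : p ^ K < G.card := by
    have h1 : (2 : ℝ) * p ^ K < 2 ^ (BB N W).card := by exact_mod_cast hcon'
    have h2 : ((p ^ K : ℕ) : ℝ) < G.card := by
      push_cast
      linarith
    exact_mod_cast h2
  have hGsub : ∀ c ∈ G, c ⊆ BB N W := fun c hc => mem_powerset.1 (mem_sdiff.1 hc).1
  obtain ⟨c, hc, c', hc', hcc, hrel⟩ := hCls p N m hpN (by omega) hm hmp B hB G
    (fun c hc b hb => hco b (hGsub c hc hb)) hGK
  have hun : ∀ b ∈ c ∪ c', b ∈ BB N W := by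
    intro b hb
    rcases mem_union.1 hb with h | h
    · exact hGsub c hc h
    · exact hGsub c' hc' h
  have hdvd := hDif p N m hpN1 hm hmp hmN c c' (fun b hb => hmb b (hun b hb)) hrel
  have hgood : ∀ d ∈ G, ∀ x, x + m < N →
      |∑ b ∈ d, ((hh N m b x : ℤ) : ℝ) - (∑ b ∈ BB N W, ((hh N m b x : ℤ) : ℝ)) / 2| < (p : ℝ) / 2 := by
    intro d hd x hx
    by_contra h
    apply (mem_sdiff.1 hd).2
    refine mem_biUnion.2 ⟨x, mem_filter.2 ⟨mem_range.2 (by omega), hx⟩, ?_⟩
    exact mem_filter.2 ⟨(mem_sdiff.1 hd).1, not_lt.1 h⟩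
  have heq : ∀ x, x + m < N → ∑ b ∈ c, hh N m b x = ∑ b ∈ c', hh N m b x := by
    intro x hx
    have h1 := hgood c hc x hx
    have h2 := hgood c' hc' x hx
    have h3 : |(((∑ b ∈ c, hh N m b x - ∑ b ∈ c', hh N m b x : ℤ)) : ℝ)| < p := by
      push_cast
      have e : (∑ b ∈ c, ((hh N m b x : ℤ) : ℝ)) - ∑ b ∈ c', ((hh N m b x : ℤ) : ℝ) =
        (∑ b ∈ c, ((hh N m b x : ℤ) : ℝ) - (∑ b ∈ BB N W, ((hh N m b x : ℤ) : ℝ)) / 2) -
        (∑ b ∈ c', ((hh N m b x : ℤ) : ℝ) - (∑ b ∈ BB N W, ((hh N m b x : ℤ) : ℝ)) / 2) := by ring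
      rw [e]
      refine (abs_sub _ _).trans_lt ?_
      linarith
    rw [← Int.cast_abs] at h3
    have h4 : |∑ b ∈ c, hh N m b x - ∑ b ∈ c', hh N m b x| < (p : ℤ) := by exact_mod_cast h3
    have h5 := Int.eq_zero_of_abs_lt_dvd (hdvd x hx) h4
    linarith
  have hphi := hRec N m hN0 hm c c' (fun b hb => hmb b (hun b hb)) heq
  -- the coefficients
  let e : ℕ → ℤ := fun b => (if b ∈ c then 1 else 0) - (if b ∈ c' then 1 else 0)
  have hsum : ∀ x < N, ∑ b ∈ BB N W, e b * Phi N m b x = 0 := by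
    intro x hx
    have h1 : ∀ d ⊆ BB N W, ∑ b ∈ BB N W, (if b ∈ d then (1 : ℤ) else 0) * Phi N m b x =
        ∑ b ∈ d, Phi N m b x := by
      intro d hd
      simp only [ite_mul, one_mul, zero_mul]
      rw [← Finset.sum_filter, Finset.filter_mem_eq_inter, Finset.inter_eq_right.2 hd]
    simp only [e, sub_mul, Finset.sum_sub_distrib]
    rw [h1 c (hGsub c hc), h1 c' (hGsub c' hc'), hphi x hx, sub_self]
  have hpol := hPol N m hN0 hm (BB N W) e (fun b hb => ⟨(hmem b hb).1.pos, hmb1 b hb⟩) hsum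
  have hzero := hFou N m hN hm (BB N W) e _ (fun b hb => ⟨(hmem b hb).1.two_le, hmb1 b hb, hco b hb⟩) hpol
  apply hcc
  ext b
  by_cases hb : b ∈ BB N W
  · have h1 := hzero b hb
    simp only [e] at h1
    by_cases h2 : b ∈ c <;> by_cases h3 : b ∈ c' <;> simp_all
  · constructor
    · intro h
      exact absurd (hGsub c hc h) hb
    · intro h
      exact absurd (hGsub c' hc' h) hb

end Pool.Agent.Helper85.GQ.Pig
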