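import Pool.Agent.Helper85.GQ.Base

/-!
# The module POL: a polynomial identity
-/

set_option autoImplicit false

namespace Pool.Agent.Helper85.GQ.Pol

open Finset Polynomial

lemma natDegree_C_mul_X_le' (c : ℂ) : (C c * X : ℂ[X]).natDegree ≤ 1 :=
  (natDegree_C_mul_le _ _).trans natDegree_X_le

/-- the difference of the values of the polynomial at `y` and at `y - q` -/
lemma tele (m : ℕ) (y : ℂ) (q : ℕ) : (pol ℂ m).eval y - (pol ℂ m).eval (y - q) =
    ((m.factorial * m : ℕ) : ℂ) * ∑ k ∈ range q, (y - ((k : ℂ) + 1)) ^ (m - 1) := by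
  induction q with
  | zero => simp
  | succ q ih =>
    rw [sum_range_succ, mul_add, ← ih]
    have h := pol_diff ℂ m (y - ((q : ℂ) + 1))
    have e : y - ((q : ℂ) + 1) + 1 = y - q := by ring
    rw [e] at h
    rw [← h]
    push_cast
    ring

/-- the value at `b x / N` compared with the value at the fractional part -/
lemma step (N m b x : ℕ) (hN : 0 < N) : (pol ℂ m).eval (((b * x : ℕ) : ℂ) / (N : ℂ)) -
    (pol ℂ m).eval (((b * x % N : ℕ) : ℂ) / (N : ℂ)) =
    ((m.factorial * m : ℕ) : ℂ) / (N : ℂ) ^ (m - 1) * ((Phi N m b x : ℤ) : ℂ) := by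
  have hN' : (N : ℂ) ≠ 0 := by exact_mod_cast hN.ne'
  have h1 := tele m (((b * x : ℕ) : ℂ) / (N : ℂ)) (b * x / N)
  have h2 : ((b * x : ℕ) : ℂ) / (N : ℂ) - ((b * x / N : ℕ) : ℂ) =
      ((b * x % N : ℕ) : ℂ) / (N : ℂ) := by
    have h3 : ((b * x : ℕ) : ℂ) = ((b * x % N : ℕ) : ℂ) + (N : ℂ) * ((b * x / N : ℕ) : ℂ) := by
      exact_mod_cast (Nat.mod_add_div (b * x) N).symm
    rw [sub_eq_iff_eq_add, h3, add_div, mul_div_cancel_left₀ _ hN']
  rw [h2] at h1
  rw [h1, Phi, div_mul_eq_mul_div, mul_div_assoc]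
  congr 1
  push_cast
  rw [sum_div]
  refine sum_congr rfl fun k _ => ?_
  rw [← div_pow, sub_div, mul_div_assoc ((k : ℂ) + 1), div_self hN', mul_one]

theorem main0 : ∀ N m : ℕ, 0 < N → 1 ≤ m → ∀ (Bs : Finset ℕ) (e : ℕ → ℤ),
    (∀ b ∈ Bs, 1 ≤ b ∧ (m + 1) * b < N) →
    (∀ x < N, ∑ b ∈ Bs, e b * Phi N m b x = 0) →
    ∀ x < N, ∑ b ∈ Bs, (e b : ℂ) * (pol ℂ m).eval (((b * x % N : ℕ) : ℂ) / (N : ℂ)) =
      (∑ b ∈ Bs, (e b : ℂ) * (b : ℂ) ^ (m - 1)) * (pol ℂ m).eval ((x : ℂ) / (N : ℂ)) := by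
  intro N m hN hm Bs e hB hPhi
  have hN' : (N : ℂ) ≠ 0 := by exact_mod_cast hN.ne'
  set M : ℂ := ∑ b ∈ Bs, (e b : ℂ) * (b : ℂ) ^ (m - 1) with hM
  set u : ℂ := ((m.factorial * m : ℕ) : ℂ) with hu
  -- the polynomial
  set Q : ℂ[X] := ∑ b ∈ Bs, C (e b : ℂ) * (pol ℂ m).comp (C ((b : ℂ) / N) * X) with hQ
  have hQe : ∀ z : ℂ, Q.eval z = ∑ b ∈ Bs, (e b : ℂ) * (pol ℂ m).eval ((b : ℂ) / N * z) := by
    intro z
    rw [hQ, eval_finset_sum]
    refine sum_congr rfl fun b _ => ?_
    simp [eval_comp]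
  have hcd : ∀ c : ℂ, ((pol ℂ m).comp (C c * X)).natDegree ≤ m := by
    intro c
    refine (natDegree_comp_le).trans ?_
    refine (Nat.mul_le_mul (pol_deg ℂ m) (natDegree_C_mul_X_le' c)).trans ?_
    simp
  have hQd : Q.natDegree ≤ m := by
    refine natDegree_sum_le_of_forall_le _ _ fun b _ => ?_
    exact (natDegree_C_mul_le _ _).trans (hcd _)
  -- the values
  have hval : ∀ x < N, ∑ b ∈ Bs, (e b : ℂ) * (pol ℂ m).eval (((b * x % N : ℕ) : ℂ) / (N : ℂ)) =
      Q.eval (x : ℂ) := by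
    intro x hx
    have h1 : ∑ b ∈ Bs, (e b : ℂ) * ((pol ℂ m).eval (((b * x : ℕ) : ℂ) / (N : ℂ)) -
        (pol ℂ m).eval (((b * x % N : ℕ) : ℂ) / (N : ℂ))) = 0 := by
      have h2 := congrArg (fun t : ℤ => u / (N : ℂ) ^ (m - 1) * (t : ℂ)) (hPhi x hx)
      simp only [Int.cast_zero, mul_zero] at h2
      rw [← h2, Int.cast_sum, mul_sum]
      refine sum_congr rfl fun b _ => ?_
      rw [step N m b x hN, Int.cast_mul]
      ring
    simp only [mul_sub, sum_sub_distrib] at h1
    rw [hQe, ← sub_eq_zero.1 h1]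
    refine sum_congr rfl fun b _ => ?_
    push_cast
    congr 2
    ring
  -- the difference equation
  have hdiff : Q.comp (X + C (N : ℂ)) - Q - C (M * u / (N : ℂ) ^ (m - 1)) * X ^ (m - 1) = 0 := by
    refine eq_zero_of_natDegree_lt_card_of_eval_eq_zero' _
      ((range (m + 1)).image fun y : ℕ => -((y : ℂ) + 1)) ?_ ?_
    · intro z hz
      obtain ⟨y, hy, rfl⟩ := Finset.mem_image.1 hz
      have hy' := mem_range.1 hy
      rw [eval_sub, eval_sub, eval_comp, eval_add, eval_X, eval_C, eval_mul, eval_C, eval_pow, eval_X]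
      by_cases hBs : Bs = ∅
      · have hM0 : M = 0 := by rw [hM, hBs]; simp
        have hQ0 : Q = 0 := by rw [hQ, hBs]; simp
        rw [hM0, hQ0]; simp
      obtain ⟨b0, hb0⟩ := Finset.nonempty_iff_ne_empty.2 hBs
      have hyN : y + 1 < N := by
        have h3 := hB b0 hb0
        nlinarith
      have h4 : -((y : ℂ) + 1) + (N : ℂ) = ((N - (y + 1) : ℕ) : ℂ) := by
        rw [Nat.cast_sub hyN.le]
        push_cast
        ring
      rw [h4, ← hval _ (by omega), hQe, hM, sum_mul, sum_div, sum_mul, ← sum_sub_distrib,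
        ← sum_sub_distrib]
      refine sum_eq_zero fun b hb => ?_
      have h5 := hB b hb
      have hby : b * (y + 1) < N := lt_of_le_of_lt (by nlinarith) h5.2
      have hb1 : 0 < b * (y + 1) := Nat.mul_pos h5.1 (Nat.succ_pos _)
      have h6 : b * (N - (y + 1)) % N = N - b * (y + 1) := by
        have h7 : b * (N - (y + 1)) = (N - b * (y + 1)) + N * (b - 1) := by
          zify [hyN.le, hby.le, h5.1]
          ring
        rw [h7, Nat.add_mul_mod_self_left]
        exact Nat.mod_eq_of_lt (by omega)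
      rw [h6]
      have h8 : ((N - b * (y + 1) : ℕ) : ℂ) / (N : ℂ) = (b : ℂ) / N * (-((y : ℂ) + 1)) + 1 := by
        rw [Nat.cast_sub hby.le]
        field_simp
        push_cast
        ring
      have h9 := pol_diff ℂ m ((b : ℂ) / N * (-((y : ℂ) + 1)))
      rw [h8, ← mul_sub, h9, ← hu, mul_pow, div_pow]
      field_simp
      ring
    · rw [card_image_of_injective _ (fun a b h => by
        have h1 : (a : ℂ) + 1 = (b : ℂ) + 1 := neg_injective h
        exact_mod_cast add_right_cancel h1), card_range]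
      refine Nat.lt_succ_of_le ?_
      refine (natDegree_sub_le _ _).trans (max_le ((natDegree_sub_le _ _).trans (max_le ?_ hQd)) ?_)
      · refine natDegree_comp_le.trans ?_
        rw [natDegree_X_add_C, mul_one]
        exact hQd
      · refine (natDegree_C_mul_le _ _).trans ?_
        rw [natDegree_X_pow]
        omega
  -- the periodic polynomial
  set R : ℂ[X] := Q - C M * (pol ℂ m).comp (C ((1 : ℂ) / N) * X) with hR
  have hRe : ∀ z : ℂ, R.eval z = Q.eval z - M * (pol ℂ m).eval (1 / (N : ℂ) * z) := by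
    intro z
    rw [hR, eval_sub, eval_mul, eval_C, eval_comp, eval_mul, eval_C, eval_X]
  have hper : ∀ z : ℂ, R.eval (z + N) = R.eval z := by
    intro z
    have h1 := congrArg (eval z) hdiff
    rw [eval_sub, eval_sub, eval_comp, eval_add, eval_X, eval_C, eval_mul, eval_C, eval_pow, eval_X,
      eval_zero] at h1
    have h2 := pol_diff ℂ m (1 / (N : ℂ) * z)
    rw [← hu] at h2
    have h3 : 1 / (N : ℂ) * (z + N) = 1 / (N : ℂ) * z + 1 := by field_simp
    rw [hRe, hRe, h3]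
    have h4 : (1 / (N : ℂ) * z) ^ (m - 1) = z ^ (m - 1) / (N : ℂ) ^ (m - 1) := by
      rw [mul_pow, div_pow, one_pow]
      ring
    rw [h4] at h2
    linear_combination h1 - M * h2
  have hzero : ∀ k : ℕ, R.eval ((k : ℂ) * N) = 0 := by
    intro k
    induction k with
    | zero =>
      rw [Nat.cast_zero, zero_mul, hRe, hQe]
      simp [pol_zero]
    | succ k ih =>
      rw [Nat.cast_succ, add_mul, one_mul, hper, ih]
  have hR0 : R = 0 := by
    refine eq_zero_of_natDegree_lt_card_of_eval_eq_zero' _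
      ((range (m + 1)).image fun y : ℕ => ((y : ℂ) * N)) ?_ ?_
    · intro z hz
      obtain ⟨y, hy, rfl⟩ := Finset.mem_image.1 hz
      exact hzero y
    · rw [card_image_of_injective _ (fun a b h => by
        have h1 : (a : ℂ) = (b : ℂ) := mul_right_cancel₀ hN' h
        exact_mod_cast h1), card_range]
      refine Nat.lt_succ_of_le ((natDegree_sub_le _ _).trans (max_le hQd ?_))
      exact (natDegree_C_mul_le _ _).trans (hcd _)
  intro x hx
  rw [hval x hx]
  have h1 := hRe x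
  rw [hR0, eval_zero] at h1
  rw [eq_comm, sub_eq_zero] at h1
  rw [h1]
  congr 2
  ring

end Pool.Agent.Helper85.GQ.Pol
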