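import Pool.Agent.Helper85.GQ.Base

/-! # REC: from differences to values -/

set_option autoImplicit false

namespace Pool.Agent.Helper85.GQ.Rec

open Finset Pool.Agent.Helper85.GQ

lemma Phi_small (N m b x : ℕ) (hb : m * b < N) (hx : x < m) : Phi N m b x = 0 := by
  have h1 : b * x < N := by
    have : b * x ≤ b * m := Nat.mul_le_mul_left b hx.le
    rw [mul_comm b m] at this
    omega
  unfold Phi
  rw [Nat.div_eq_of_lt h1]
  simp

theorem main : S_REC := by
  intro N m hN hm c c' hb H x
  induction x using Nat.strong_induction_on with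
  | _ x ih =>
    intro hx
    by_cases h : x < m
    · rw [sum_eq_zero fun b hbc => Phi_small N m b x (hb b (mem_union_left _ hbc)) h,
        sum_eq_zero fun b hbc => Phi_small N m b x (hb b (mem_union_right _ hbc)) h]
    · obtain ⟨y, rfl⟩ := Nat.exists_eq_add_of_le (not_lt.1 h)
      have h1 := H y (by omega)
      unfold hh at h1
      rw [sum_comm, sum_comm (s := c')] at h1
      simp_rw [← mul_sum] at h1
      rw [sum_range_succ, sum_range_succ] at h1
      have h2 : ∑ i ∈ range m, (-1 : ℤ) ^ (m - i) * ((m.choose i : ℕ) : ℤ) * ∑ b ∈ c, Phi N m b (y + i) =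
          ∑ i ∈ range m, (-1 : ℤ) ^ (m - i) * ((m.choose i : ℕ) : ℤ) * ∑ b ∈ c', Phi N m b (y + i) := by
        refine sum_congr rfl fun i hi => ?_
        have hi' := mem_range.1 hi
        rw [ih (y + i) (by omega) (by omega)]
      rw [h2] at h1
      have h3 := add_left_cancel h1
      simp only [Nat.sub_self, pow_zero, Nat.choose_self, Nat.cast_one, one_mul] at h3
      rw [add_comm m y]
      exact h3

end Pool.Agent.Helper85.GQ.Rec
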