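import Pool.Agent.Helper85.GQ.Base

/-! # SPC: few primes with a jump in a short window -/

set_option autoImplicit false

namespace Pool.Agent.Helper85.GQ.Spc

open Finset Pool.Agent.Helper85.GQ

/-- the numerator of the fraction with denominator `b` in the window -/
def kk (N x b : ℕ) : ℕ := b * x / N + 1

lemma kk_gt (N x b : ℕ) (hN : 0 < N) : b * x < kk N x b * N := by
  have h := Nat.lt_mul_div_succ (b * x) hN
  rw [Nat.mul_comm N] at h
  exact h

lemma kk_le (N m x b : ℕ) (h : b * x / N ≠ b * (x + m) / N) : kk N x b * N ≤ b * (x + m) := by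
  have h1 : b * x / N ≤ b * (x + m) / N := Nat.div_le_div_right (Nat.mul_le_mul_left b (by omega))
  have h2 : kk N x b ≤ b * (x + m) / N := by unfold kk; omega
  exact (Nat.mul_le_mul_right N h2).trans (Nat.div_mul_le_self _ _)

/-- the integer code of the position of the fraction in the window -/
def ff (N W x b : ℕ) : ℕ := W ^ 2 * (kk N x b * N - b * x) / (b * N)

theorem main : S_SPC := by
  intro N m W x hN hm hx
  set S := (range (W + 1)).filter fun b => b.Prime ∧ b * x / N ≠ b * (x + m) / N with hS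
  have hmem : ∀ b ∈ S, b ≤ W ∧ b.Prime ∧ kk N x b * N ≤ b * (x + m) ∧ b * x < kk N x b * N ∧
      kk N x b < b := by
    intro b hb
    rw [hS, mem_filter, mem_range] at hb
    have h1 := kk_le N m x b hb.2.2
    have h2 := kk_gt N x b hN
    refine ⟨by omega, hb.2.1, h1, h2, ?_⟩
    have h3 : kk N x b * N < b * N := by
      refine lt_of_le_of_lt h1 ?_
      exact Nat.mul_lt_mul_of_pos_left hx hb.2.1.pos
    exact lt_of_mul_lt_mul_right h3 (Nat.zero_le N)
  have hmaps : ∀ b ∈ S, ff N W x b ∈ range (W ^ 2 * m / N + 1) := by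
    intro b hb
    obtain ⟨-, hp, h1, h2, -⟩ := hmem b hb
    rw [mem_range, Nat.lt_succ_iff]
    unfold ff
    rw [Nat.le_div_iff_mul_le hN]
    have h3 : W ^ 2 * (kk N x b * N - b * x) / (b * N) ≤ W ^ 2 * (b * m) / (b * N) := by
      apply Nat.div_le_div_right
      apply Nat.mul_le_mul_left
      rw [mul_add] at h1
      omega
    have h4 : W ^ 2 * (b * m) / (b * N) = W ^ 2 * m / N := by
      rw [show W ^ 2 * (b * m) = b * (W ^ 2 * m) by ring]
      exact Nat.mul_div_mul_left _ _ hp.pos
    rw [h4] at h3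
    exact (Nat.mul_le_mul_right N h3).trans (Nat.div_mul_le_self _ _)
  have hinj : Set.InjOn (ff N W x) (S : Set ℕ) := by
    intro b hb b' hb' he
    by_contra hne
    obtain ⟨hW, hp, h1, h2, h3⟩ := hmem b (mem_coe.1 hb)
    obtain ⟨hW', hp', h1', h2', h3'⟩ := hmem b' (mem_coe.1 hb')
    set q := ff N W x b with hq
    have hbN : 0 < b * N := Nat.mul_pos hp.pos hN
    have hbN' : 0 < b' * N := Nat.mul_pos hp'.pos hN
    have a1 : q * (b * N) ≤ W ^ 2 * (kk N x b * N - b * x) := Nat.div_mul_le_self _ _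
    have a2 : W ^ 2 * (kk N x b * N - b * x) < (q + 1) * (b * N) := by
      have := Nat.lt_mul_div_succ (W ^ 2 * (kk N x b * N - b * x)) hbN
      rw [Nat.mul_comm (b * N)] at this
      exact this
    have a1' : q * (b' * N) ≤ W ^ 2 * (kk N x b' * N - b' * x) := by
      rw [he]
      exact Nat.div_mul_le_self _ _
    have a2' : W ^ 2 * (kk N x b' * N - b' * x) < (q + 1) * (b' * N) := by
      rw [he]
      have := Nat.lt_mul_div_succ (W ^ 2 * (kk N x b' * N - b' * x)) hbN'
      rw [Nat.mul_comm (b' * N)] at this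
      exact this
    zify [h2.le, h2'.le] at a1 a2 a1' a2'
    set k : ℤ := (kk N x b : ℤ) with hk
    set k' : ℤ := (kk N x b' : ℤ) with hk'
    have hN' : (0 : ℤ) < N := by exact_mod_cast hN
    have hb0 : (0 : ℤ) < b := by exact_mod_cast hp.pos
    have hb0' : (0 : ℤ) < b' := by exact_mod_cast hp'.pos
    -- cross differences
    have c1 : (W : ℤ) ^ 2 * (N * (k * b' - k' * b)) < b * b' * N := by
      have e1 := mul_lt_mul_of_pos_right a2 hb0'
      have e2 := mul_le_mul_of_nonneg_right a1' hb0.le
      nlinarith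
    have c2 : (W : ℤ) ^ 2 * (N * (k' * b - k * b')) < b * b' * N := by
      have e1 := mul_lt_mul_of_pos_right a2' hb0
      have e2 := mul_le_mul_of_nonneg_right a1 hb0'.le
      nlinarith
    have hWW : (b : ℤ) * b' ≤ (W : ℤ) ^ 2 := by
      have g1 : (b : ℤ) ≤ W := by exact_mod_cast hW
      have g2 : (b' : ℤ) ≤ W := by exact_mod_cast hW'
      nlinarith
    have hbb : (0 : ℤ) < b * b' := mul_pos hb0 hb0'
    have d1 : k * b' - k' * b < 1 := by
      by_contra hcon
      push Not at hcon
      have g1 : (b : ℤ) * b' * N ≤ (W : ℤ) ^ 2 * (N * (k * b' - k' * b)) := by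
        calc (b : ℤ) * b' * N ≤ (W : ℤ) ^ 2 * N := mul_le_mul_of_nonneg_right hWW hN'.le
          _ = (W : ℤ) ^ 2 * (N * 1) := by ring
          _ ≤ _ := by
            apply mul_le_mul_of_nonneg_left _ (by positivity)
            exact mul_le_mul_of_nonneg_left hcon hN'.le
      linarith
    have d2 : k' * b - k * b' < 1 := by
      by_contra hcon
      push Not at hcon
      have g1 : (b : ℤ) * b' * N ≤ (W : ℤ) ^ 2 * (N * (k' * b - k * b')) := by
        calc (b : ℤ) * b' * N ≤ (W : ℤ) ^ 2 * N := mul_le_mul_of_nonneg_right hWW hN'.le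
          _ = (W : ℤ) ^ 2 * (N * 1) := by ring
          _ ≤ _ := by
            apply mul_le_mul_of_nonneg_left _ (by positivity)
            exact mul_le_mul_of_nonneg_left hcon hN'.le
      linarith
    have heq : k * b' = k' * b := by omega
    have heq' : kk N x b * b' = kk N x b' * b := by
      rw [hk, hk'] at heq
      exact_mod_cast heq
    have hdvd : b ∣ kk N x b * b' := heq' ▸ Dvd.intro_left _ rfl
    rcases hp.dvd_mul.1 hdvd with h | h
    · have hpos : 0 < kk N x b := Nat.succ_pos _
      exact absurd (Nat.le_of_dvd hpos h) (not_le.2 h3)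
    · exact hne ((Nat.prime_dvd_prime_iff_eq hp hp').1 h)
  have hcard := card_le_card_of_injOn (ff N W x) (fun b hb => hmaps b hb) hinj
  rw [card_range] at hcard
  calc S.card * N ≤ (W ^ 2 * m / N + 1) * N := Nat.mul_le_mul_right N hcard
    _ = W ^ 2 * m / N * N + N := by ring
    _ ≤ W ^ 2 * m + N := by
      have := Nat.div_mul_le_self (W ^ 2 * m) N
      omega
    _ = m * W ^ 2 + N := by ring

end Pool.Agent.Helper85.GQ.Spc
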